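import Mathlib

/-! The circulant graph on 12 points with distances 1, 3, 4 has no acyclic orientation avoiding two
patterns: a checked case tree. -/

set_option autoImplicit false
set_option maxRecDepth 100000

namespace Pool.Agent.Lib.MP_185924_lc.CO.Cert

/-- adjacency in the circulant graph -/
def A (u v : ℕ) : Bool :=
  decide (u < 12) && decide (v < 12) && (Nat.testBit 2842 ((u + 12 - v) % 12))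

/-- case trees -/
inductive T
  | c3 (u v w : ℕ) : T
  | p1 (x p a b d : ℕ) : T
  | p2 (x p a b d : ℕ) : T
  | nd (u v : ℕ) (l r : T) : T

/-- the directed edge `u → v` is recorded in `m` -/
def has (m u v : ℕ) : Bool := decide (v < 12) && Nat.testBit m (12 * u + v)

/-- the checker -/
def chk : T → ℕ → Bool
  | .c3 u v w, m => has m u v && has m v w && has m w u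
  | .p1 x p a b d, m => has m x p && has m p a && has m p b && has m a d && has m b d &&
      A x a && A x b && decide (a ≠ b)
  | .p2 x p a b d, m => has m x p && has m p a && has m a d && has m d b &&
      A x a && A x b && A p b
  | .nd u v l r, m => A u v && chk l (m ||| 2 ^ (12 * u + v)) && chk r (m ||| 2 ^ (12 * v + u))

theorem sound {W : Type} [LinearOrder W] (o : ℕ → ℕ → Prop) (col : ℕ → W)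
    (h0 : ∀ u v, A u v = true → o u v ∨ o v u) (hlt : ∀ u v, o u v → col u < col v)
    (hp1 : ∀ x p a b d, o x p → o x a → o x b → o p a → o p b → a < 12 → b < 12 → a ≠ b →
      o a d → o b d → False)
    (hp2 : ∀ x p a b d, o x p → o x a → o x b → o p a → o p b → o a d → o d b → False) :
    ∀ (t : T) (m : ℕ), (∀ u v, has m u v = true → o u v) → chk t m = true → False := by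
  have hdir : ∀ u v, A u v = true → col u < col v → o u v := fun u v h h' =>
    (h0 u v h).resolve_right fun h'' => lt_asymm h' (hlt _ _ h'')
  have hadd : ∀ m u v, v < 12 → o u v → (∀ u v, has m u v = true → o u v) →
      ∀ u' v', has (m ||| 2 ^ (12 * u + v)) u' v' = true → o u' v' := by
    intro m u v hv ho hm u' v' h
    simp only [has, Bool.and_eq_true, decide_eq_true_eq, Nat.testBit_or, Bool.or_eq_true,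
      Nat.testBit_two_pow] at h hm
    rcases h.2 with h2 | h2
    · exact hm u' v' ⟨h.1, h2⟩
    · obtain ⟨rfl, rfl⟩ : u' = u ∧ v' = v := by omega
      exact ho
  intro t
  induction t with
  | c3 u v w =>
    intro m hm h
    simp only [chk, Bool.and_eq_true] at h
    exact lt_asymm ((hlt _ _ (hm _ _ h.1.1)).trans (hlt _ _ (hm _ _ h.1.2))) (hlt _ _ (hm _ _ h.2))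
  | p1 x p a b d =>
    intro m hm h
    simp only [chk, Bool.and_eq_true, decide_eq_true_eq] at h
    obtain ⟨⟨⟨⟨⟨⟨⟨e1, e2⟩, e3⟩, e4⟩, e5⟩, e6⟩, e7⟩, e8⟩ := h
    have a1 := hm _ _ e1
    have a2 := hm _ _ e2
    have a3 := hm _ _ e3
    simp only [has, Bool.and_eq_true, decide_eq_true_eq] at e2 e3
    exact hp1 x p a b d a1 (hdir _ _ e6 ((hlt _ _ a1).trans (hlt _ _ a2)))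
      (hdir _ _ e7 ((hlt _ _ a1).trans (hlt _ _ a3))) a2 a3 e2.1 e3.1 e8 (hm _ _ e4) (hm _ _ e5)
  | p2 x p a b d =>
    intro m hm h
    simp only [chk, Bool.and_eq_true] at h
    obtain ⟨⟨⟨⟨⟨⟨e1, e2⟩, e3⟩, e4⟩, e5⟩, e6⟩, e7⟩ := h
    have a1 := hm _ _ e1
    have a2 := hm _ _ e2
    have a3 := hm _ _ e3
    have a4 := hm _ _ e4
    have l1 := (hlt _ _ a2).trans ((hlt _ _ a3).trans (hlt _ _ a4))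
    exact hp2 x p a b d a1 (hdir _ _ e5 ((hlt _ _ a1).trans (hlt _ _ a2)))
      (hdir _ _ e6 ((hlt _ _ a1).trans l1)) a2 (hdir _ _ e7 l1) a3 a4
  | nd u v l r ihl ihr =>
    intro m hm h
    simp only [chk, Bool.and_eq_true] at h
    have hA := h.1.1
    have hb : u < 12 ∧ v < 12 := by
      simp only [A, Bool.and_eq_true, decide_eq_true_eq] at hA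
      exact hA.1
    rcases h0 u v hA with h' | h'
    · exact ihl _ (hadd m u v hb.2 h' hm) h.1.2
    · exact ihr _ (hadd m v u hb.1 h' hm) h.2

def t0 : T :=
  (.nd 5 9 (.nd 6 9 (.nd 1 10 (.nd 2 5 (.nd 10 6 (.p2 2 5 1 6 10) (.nd 6 2 (.p2 6 2 5 10 1) (.nd 5
  6 (.p1 2 5 1 6 10) (.p2 2 6 5 10 1)))) (.nd 10 6 (.p2 5 2 1 6 10) (.nd 2 6 (.p1 5 2 1 6 10) (.nd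
  1 9 (.nd 5 6 (.p2 5 6 2 9 1) (.p2 6 5 2 9 1)) (.nd 5 6 (.p1 5 6 2 9 1) (.p1 6 5 2 9 1)))))) (.nd
  9 10 (.nd 1 9 (.c3 1 9 10) (.nd 2 5 (.nd 5 6 (.p2 2 5 6 1 9) (.nd 2 6 (.p2 2 6 5 10 9) (.p2 6 2
  5 10 9))) (.nd 6 5 (.p1 6 5 2 9 1) (.nd 2 6 (.p2 5 2 6 1 9) (.p1 5 6 2 9 1))))) (.nd 2 3 (.nd 2
  6 (.nd 1 9 (.nd 5 2 (.p1 5 2 1 6 9) (.nd 10 2 (.p1 10 2 1 6 9) (.nd 5 6 (.p1 2 5 1 6 9) (.nd 6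
  10 (.p1 2 6 5 10 1) (.p1 2 10 1 6 9))))) (.nd 5 2 (.p2 5 2 6 1 9) (.nd 10 2 (.p2 10 2 6 1 9)
  (.nd 5 6 (.p2 2 5 6 1 9) (.nd 10 6 (.p2 2 10 6 1 5) (.p1 2 6 5 10 1)))))) (.nd 1 9 (.nd 5 6 (.p2
  5 6 2 9 1) (.nd 5 2 (.p2 6 5 2 9 1) (.nd 3 4 (.p1 6 2 3 5 4) (.p2 6 2 5 3 4)))) (.nd 5 6 (.p1 5
  6 2 9 1) (.nd 5 2 (.p1 6 5 2 9 1) (.nd 4 3 (.p2 6 2 5 3 4) (.p1 6 2 3 5 4)))))) (.nd 4 3 (.p2 0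
  4 3 1 2) (.nd 3 11 (.nd 4 8 (.nd 11 8 (.p1 0 3 4 11 8) (.p2 0 3 4 11 8)) (.nd 11 8 (.p2 0 3 11 4
  8) (.nd 11 10 (.p2 0 8 11 9 10) (.nd 1 4 (.nd 1 9 (.nd 2 6 (.nd 10 2 (.p1 10 2 1 6 9) (.nd 6 10
  (.p2 3 2 6 11 10) (.p1 2 10 1 6 9))) (.nd 5 6 (.p2 5 6 2 9 1) (.nd 5 2 (.p2 6 5 2 9 1) (.nd 10 6
  (.p2 10 6 2 9 1) (.nd 2 10 (.p1 6 2 5 10 1) (.p2 6 10 2 9 1)))))) (.nd 9 8 (.p1 0 9 1 8 4) (.p2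
  0 8 9 4 1))) (.nd 1 9 (.p2 0 8 4 9 1) (.nd 9 8 (.p2 0 9 8 1 4) (.p1 0 8 4 9 1))))))) (.nd 8 11
  (.p2 0 8 11 4 3) (.nd 4 8 (.p2 0 11 3 8 4) (.p1 0 11 3 8 4)))))))) (.nd 6 2 (.p2 5 9 6 1 2) (.nd
  1 9 (.nd 2 5 (.p2 2 5 1 6 9) (.p2 5 2 1 6 9)) (.nd 1 10 (.nd 6 10 (.p1 5 9 1 6 10) (.nd 2 5 (.p2
  2 5 1 6 10) (.p2 5 2 1 6 10))) (.nd 6 10 (.p2 5 9 6 1 10) (.nd 1 4 (.nd 8 9 (.p2 0 8 9 4 1) (.nd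
  4 8 (.p2 0 9 1 8 4) (.p1 0 9 1 8 4))) (.nd 4 8 (.nd 3 4 (.nd 8 11 (.p2 0 3 4 11 8) (.nd 11 3
  (.p2 0 11 3 8 4) (.p1 0 3 4 11 8))) (.nd 3 2 (.p2 0 4 3 1 2) (.nd 3 7 (.nd 8 7 (.p1 0 4 3 8 7)
  (.p2 0 4 3 8 7)) (.nd 3 11 (.nd 8 11 (.p1 0 4 3 8 11) (.p2 0 4 3 8 11)) (.nd 2 10 (.nd 3 6 (.nd
  11 2 (.p1 11 2 3 10 6) (.nd 10 11 (.p2 2 10 11 6 3) (.p1 2 11 3 10 6))) (.nd 10 11 (.p1 2 10 6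
  11 3) (.nd 2 11 (.p2 2 11 10 3 6) (.p2 11 2 10 3 6)))) (.nd 7 10 (.nd 11 7 (.p2 11 7 10 3 2)
  (.nd 11 10 (.p2 7 11 10 3 2) (.nd 6 3 (.p1 7 10 6 11 3) (.p2 7 10 11 6 3)))) (.nd 11 10 (.p1 11
  10 2 7 3) (.nd 2 11 (.nd 6 3 (.p1 10 2 6 11 3) (.p2 10 2 11 6 3)) (.nd 11 7 (.p1 10 11 2 7 3)
  (.p2 10 7 11 6 2)))))))))) (.nd 8 9 (.p1 0 8 4 9 1) (.p2 0 9 8 1 4))))))))) (.nd 1 9 (.c3 1 9 5)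
  (.nd 8 9 (.c3 5 8 9) (.nd 1 4 (.nd 8 4 (.p1 0 9 1 8 4) (.p2 0 9 1 8 4)) (.nd 8 4 (.p2 0 9 8 1 4)
  (.nd 3 4 (.nd 8 11 (.p2 0 3 4 11 8) (.nd 11 3 (.p2 0 11 3 8 4) (.p1 0 3 4 11 8))) (.nd 3 2 (.p2
  0 4 3 1 2) (.nd 3 7 (.nd 8 7 (.p1 0 4 3 8 7) (.p2 0 4 3 8 7)) (.nd 3 11 (.nd 8 11 (.p1 0 4 3 8
  11) (.p2 0 4 3 8 11)) (.nd 1 10 (.nd 6 9 (.p2 6 9 5 10 1) (.nd 10 6 (.p2 9 5 1 6 10) (.nd 6 5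
  (.p2 9 6 5 10 1) (.p1 9 5 1 6 10)))) (.nd 6 9 (.nd 5 6 (.c3 5 6 9) (.nd 9 10 (.p1 6 9 5 10 1)
  (.nd 2 6 (.p2 2 6 5 3 4) (.nd 2 5 (.p2 6 2 5 3 4) (.nd 6 10 (.p2 6 10 9 2 5) (.p2 10 6 9 2
  5)))))) (.nd 2 6 (.nd 6 5 (.p2 2 6 5 3 4) (.nd 6 10 (.p2 9 5 6 1 10) (.nd 2 10 (.nd 3 6 (.nd 11
  2 (.p1 11 2 3 10 6) (.nd 10 11 (.p2 2 10 11 6 3) (.p1 2 11 3 10 6))) (.nd 10 11 (.p1 2 10 6 11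
  3) (.nd 2 11 (.p2 2 11 10 3 6) (.p2 11 2 10 3 6)))) (.nd 7 10 (.nd 11 7 (.p2 11 7 10 3 2) (.nd
  11 10 (.p2 7 11 10 3 2) (.nd 6 3 (.p1 7 10 6 11 3) (.p2 7 10 11 6 3)))) (.nd 11 10 (.p1 11 10 2
  7 3) (.nd 2 11 (.nd 6 3 (.p1 10 2 6 11 3) (.p2 10 2 11 6 3)) (.nd 11 7 (.p1 10 11 2 7 3) (.p2 10
  7 11 6 2)))))))) (.nd 5 6 (.p2 9 5 6 1 2) (.nd 10 9 (.p2 10 9 6 1 2) (.nd 6 10 (.p1 9 6 5 10 1)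
  (.p2 9 10 6 1 2))))))))))))))))

def t1 : T :=
  (.nd 1 5 (.nd 5 2 (.c3 1 5 2) (.nd 1 4 (.nd 1 9 (.nd 4 5 (.nd 9 5 (.p1 0 1 4 9 5) (.p2 0 1 4 9
  5)) (.nd 9 5 (.p2 0 1 9 4 5) (.nd 9 10 (.p2 2 1 5 10 9) (.nd 1 10 (.p1 2 1 5 10 9) (.nd 2 10
  (.nd 6 2 (.p1 6 2 5 10 9) (.nd 6 10 (.p2 2 6 10 5 1) (.nd 5 6 (.p2 2 10 1 6 5) (.p1 2 10 1 6
  5)))) (.nd 6 10 (.p2 6 10 2 9 1) (.nd 5 6 (.p2 10 2 1 6 5) (.nd 6 2 (.p2 10 6 2 9 1) (.p1 10 2 1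
  6 5))))))))) (.nd 8 9 (.p2 0 8 9 4 1) (.nd 4 8 (.p2 0 9 1 8 4) (.p1 0 9 1 8 4)))) (.nd 5 8 (.p2
  0 4 1 8 5) (.nd 4 8 (.p1 0 4 1 8 5) (.nd 1 9 (.p2 0 8 4 9 1) (.nd 9 8 (.p2 0 9 8 1 4) (.p1 0 8 4
  9 1))))))) (.nd 5 8 (.nd 4 5 (.nd 1 4 (.c3 1 4 5) (.nd 8 4 (.c3 4 5 8) (.nd 1 9 (.nd 8 9 (.p1 0
  4 1 8 9) (.p2 0 4 1 8 9)) (.nd 3 4 (.nd 8 11 (.p2 0 3 4 11 8) (.nd 11 3 (.p2 0 11 3 8 4) (.p1 0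
  3 4 11 8))) (.nd 3 2 (.p2 0 4 3 1 2) (.nd 3 7 (.nd 8 7 (.p1 0 4 3 8 7) (.p2 0 4 3 8 7)) (.nd 3
  11 (.nd 8 11 (.p1 0 4 3 8 11) (.p2 0 4 3 8 11)) (.nd 1 10 (.nd 2 5 (.nd 10 6 (.p2 2 5 1 6 10)
  (.nd 6 2 (.p2 6 2 5 10 1) (.nd 5 6 (.p1 2 5 1 6 10) (.p2 2 6 5 10 1)))) (.nd 10 6 (.p2 5 2 1 6
  10) (.nd 2 6 (.p1 5 2 1 6 10) (.nd 5 6 (.nd 6 9 (.p1 5 6 2 9 1) (.nd 5 9 (.p1 5 9 1 6 10) (.p1 9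
  5 1 6 10))) (.nd 5 9 (.p1 6 5 2 9 1) (.nd 6 9 (.p2 6 9 5 10 1) (.p2 9 6 5 10 1))))))) (.nd 3 6
  (.nd 6 2 (.c3 2 3 6) (.nd 2 11 (.nd 6 10 (.p2 2 11 3 10 6) (.nd 10 2 (.p2 10 2 11 6 3) (.nd 11
  10 (.p1 2 11 3 10 6) (.p2 2 10 11 6 3)))) (.nd 6 10 (.p2 11 2 3 10 6) (.nd 2 10 (.p1 11 2 3 10
  6) (.nd 7 10 (.nd 11 7 (.p1 11 7 3 10 6) (.nd 10 11 (.p2 7 10 11 6 2) (.p2 7 11 10 3 2))) (.nd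
  11 10 (.p1 11 10 2 7 3) (.nd 7 11 (.p2 10 7 11 6 2) (.p1 10 11 2 7 3)))))))) (.nd 2 5 (.nd 6 10
  (.nd 5 6 (.p2 2 5 6 1 10) (.nd 2 6 (.p1 2 6 5 10 1) (.nd 2 10 (.p1 6 2 5 10 1) (.nd 10 9 (.p1 6
  10 2 9 1) (.nd 9 6 (.p1 9 6 5 10 1) (.p2 6 9 10 5 2)))))) (.nd 5 6 (.nd 6 2 (.c3 2 5 6) (.nd 10
  11 (.nd 2 10 (.p1 2 10 6 11 3) (.nd 7 10 (.p1 7 10 6 11 3) (.nd 2 11 (.p1 10 2 6 11 3) (.nd 11 7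
  (.p1 10 11 2 7 3) (.p2 10 7 11 6 2))))) (.nd 2 11 (.p2 2 11 10 3 6) (.nd 7 11 (.p2 7 11 10 3 6)
  (.nd 2 10 (.p2 11 2 10 3 6) (.nd 7 10 (.p2 11 7 10 3 2) (.p1 11 10 2 7 3))))))) (.nd 2 10 (.p2 2
  10 6 1 5) (.nd 9 10 (.p2 9 10 6 1 5) (.nd 2 6 (.p2 10 2 6 1 5) (.nd 9 6 (.p2 10 9 6 1 2) (.p1 10
  6 2 9 1))))))) (.nd 6 9 (.nd 2 6 (.p2 5 2 6 1 9) (.nd 5 6 (.p1 5 6 2 9 1) (.nd 5 9 (.p1 6 5 2 9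
  1) (.nd 9 10 (.p1 6 9 5 10 1) (.nd 10 6 (.p1 10 6 2 9 1) (.p2 6 10 9 2 5)))))) (.nd 2 6 (.nd 6
  10 (.p2 5 2 6 1 10) (.nd 10 11 (.nd 2 10 (.p1 2 10 6 11 3) (.nd 7 10 (.p1 7 10 6 11 3) (.nd 2 11
  (.p1 10 2 6 11 3) (.nd 11 7 (.p1 10 11 2 7 3) (.p2 10 7 11 6 2))))) (.nd 2 11 (.p2 2 11 10 3 6)
  (.nd 7 11 (.p2 7 11 10 3 6) (.nd 2 10 (.p2 11 2 10 3 6) (.nd 7 10 (.p2 11 7 10 3 2) (.p1 11 10 2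
  7 3))))))) (.nd 5 9 (.p2 5 9 6 1 2) (.nd 5 6 (.p2 9 5 6 1 2) (.nd 10 9 (.p2 10 9 6 1 2) (.nd 6
  10 (.p1 9 6 5 10 1) (.p2 9 10 6 1 2))))))))))))))))) t0) (.nd 4 8 (.p2 0 4 8 1 5) (.nd 9 8 (.p2
  0 9 8 1 5) (.nd 1 4 (.nd 9 1 (.p2 0 8 9 4 1) (.nd 2 5 (.nd 9 6 (.p2 2 5 1 6 9) (.nd 5 6 (.p1 2 5
  1 6 9) (.nd 2 6 (.nd 10 2 (.p1 10 2 1 6 9) (.nd 1 10 (.p2 2 6 5 10 1) (.nd 10 6 (.p2 2 10 6 1 5)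
  (.p1 2 6 5 10 1)))) (.nd 1 10 (.p2 6 2 5 10 1) (.nd 10 6 (.p2 10 6 2 9 1) (.nd 2 10 (.p1 6 2 5
  10 1) (.p2 6 10 2 9 1))))))) (.nd 9 6 (.p2 5 2 1 6 9) (.nd 6 5 (.p2 6 5 2 9 1) (.nd 2 6 (.p1 5 2
  1 6 9) (.p2 5 6 2 9 1)))))) (.nd 9 1 (.p1 0 8 4 9 1) (.p2 0 8 4 9 1)))))))

def t2 : T :=
  (.nd 0 11 (.nd 1 2 (.nd 1 4 (.nd 1 9 (.nd 4 5 (.nd 9 5 (.p1 0 1 4 9 5) (.p2 0 1 4 9 5)) (.nd 9 5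
  (.p2 0 1 9 4 5) (.nd 4 8 (.nd 9 8 (.p1 0 1 4 9 8) (.p2 0 1 4 9 8)) (.nd 9 8 (.p2 0 1 9 4 8) (.nd
  2 5 (.nd 9 10 (.p2 1 2 5 10 9) (.nd 10 1 (.p2 10 1 2 9 5) (.nd 2 10 (.p1 1 2 5 10 9) (.p2 1 10 2
  9 5)))) (.nd 3 4 (.nd 3 11 (.nd 11 8 (.p2 0 3 11 4 8) (.nd 4 7 (.nd 11 7 (.p1 0 3 4 11 7) (.p2 0
  3 4 11 7)) (.nd 11 7 (.p2 0 3 11 4 7) (.nd 9 10 (.nd 11 10 (.p1 0 8 9 11 10) (.p2 0 8 9 11 10))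
  (.nd 11 10 (.p2 0 8 11 9 10) (.nd 2 3 (.nd 1 5 (.p2 1 5 2 4 3) (.p2 5 1 2 4 3)) (.nd 2 10 (.nd 1
  5 (.p2 1 5 2 9 10) (.p2 5 1 2 9 10)) (.nd 2 6 (.nd 1 5 (.nd 9 6 (.p1 1 5 2 9 6) (.p2 1 5 2 9 6))
  (.nd 9 6 (.p1 5 1 2 9 6) (.p2 5 1 2 9 6))) (.nd 2 11 (.nd 6 7 (.nd 3 6 (.p1 3 6 2 7 11) (.nd 3 7
  (.p1 6 3 2 7 11) (.nd 7 10 (.p1 6 7 3 10 2) (.nd 6 10 (.p1 6 10 2 7 11) (.p1 10 6 2 7 11)))))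
  (.nd 3 7 (.p2 3 7 6 11 2) (.nd 3 6 (.p2 7 3 6 11 2) (.nd 10 7 (.p2 10 7 6 11 2) (.nd 6 10 (.p1 7
  6 3 10 2) (.p2 7 10 6 11 2)))))) (.nd 6 7 (.nd 3 6 (.p2 3 6 7 2 11) (.nd 3 7 (.p2 6 3 7 2 11)
  (.nd 10 6 (.p2 10 6 7 2 3) (.nd 7 10 (.p1 6 7 3 10 2) (.p2 6 10 7 2 3))))) (.nd 3 7 (.p1 3 7 6
  11 2) (.nd 3 6 (.p1 7 3 6 11 2) (.nd 6 10 (.p1 7 6 3 10 2) (.nd 7 10 (.p1 7 10 6 11 2) (.p1 10 7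
  6 11 2))))))))))))))) (.nd 11 8 (.p1 0 11 3 8 4) (.p2 0 8 11 4 3))) (.nd 3 11 (.p2 0 8 4 11 3)
  (.nd 11 8 (.p2 0 11 8 3 4) (.p1 0 8 4 11 3))))))))) (.nd 8 9 (.p2 0 8 9 4 1) (.nd 4 8 (.p2 0 9 1
  8 4) (.p1 0 9 1 8 4)))) (.nd 2 3 (.p2 0 4 1 3 2) (.nd 4 3 (.p1 0 4 1 3 2) (.nd 4 8 (.nd 8 11
  (.p2 0 3 4 11 8) (.nd 11 3 (.p2 0 11 3 8 4) (.p1 0 3 4 11 8))) (.nd 1 9 (.p2 0 8 4 9 1) (.nd 9 8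
  (.p2 0 9 8 1 4) (.p1 0 8 4 9 1))))))) t1) (.nd 3 11 (.c3 0 3 11) (.nd 3 4 (.nd 8 4 (.p1 11 0 3 8
  4) (.p2 11 0 3 8 4)) (.nd 8 4 (.p2 11 0 8 3 4) (.nd 3 7 (.nd 8 7 (.p1 0 4 3 8 7) (.p2 0 4 3 8
  7)) (.nd 1 4 (.nd 8 9 (.p2 0 1 4 9 8) (.nd 9 1 (.p2 0 9 1 8 4) (.p1 0 1 4 9 8))) (.nd 1 2 (.nd 3
  2 (.p1 0 4 1 3 2) (.p2 0 4 1 3 2)) (.nd 3 2 (.p2 0 4 3 1 2) (.nd 1 5 (.nd 8 5 (.p1 0 4 1 8 5)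
  (.p2 0 4 1 8 5)) (.nd 1 9 (.nd 8 9 (.p1 0 4 1 8 9) (.p2 0 4 1 8 9)) (.nd 8 9 (.p2 0 4 8 1 9)
  (.nd 2 10 (.nd 10 11 (.p2 2 10 11 1 0) (.nd 7 10 (.nd 9 10 (.nd 6 10 (.nd 1 10 (.nd 5 6 (.nd 2 5
  (.p1 2 5 1 6 10) (.nd 2 6 (.p1 5 2 1 6 10) (.nd 6 9 (.p1 5 6 2 9 1) (.nd 5 9 (.p1 5 9 1 6 10)
  (.p1 9 5 1 6 10))))) (.nd 2 6 (.p2 2 6 5 10 1) (.nd 2 5 (.p2 6 2 5 10 1) (.nd 9 6 (.p2 9 6 5 10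
  1) (.nd 5 9 (.p1 6 5 2 9 1) (.p2 6 9 5 10 1)))))) (.nd 5 6 (.nd 2 5 (.p2 2 5 6 1 10) (.nd 2 6
  (.p2 5 2 6 1 10) (.nd 9 5 (.p2 9 5 6 1 2) (.nd 6 9 (.p1 5 6 2 9 1) (.p2 5 9 6 1 2))))) (.nd 2 6
  (.p1 2 6 5 10 1) (.nd 2 5 (.p1 6 2 5 10 1) (.nd 5 9 (.p1 6 5 2 9 1) (.nd 6 9 (.p1 6 9 5 10 1)
  (.p1 9 6 5 10 1))))))) (.nd 2 11 (.nd 3 6 (.p1 2 11 3 10 6) (.p2 2 11 10 3 6)) (.nd 3 6 (.p1 11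
  2 3 10 6) (.p2 11 2 10 3 6)))) (.nd 7 11 (.p2 7 11 10 8 9) (.p2 11 7 10 8 9))) (.nd 2 11 (.p2 2
  11 10 3 7) (.p2 11 2 10 3 7)))) (.nd 2 11 (.p2 10 2 11 1 0) (.nd 7 10 (.nd 6 7 (.p2 6 7 10 3 2)
  (.nd 6 10 (.p2 7 6 10 3 2) (.nd 11 7 (.p2 11 7 10 3 2) (.nd 11 10 (.p2 7 11 10 3 2) (.nd 6 2
  (.p1 7 10 6 11 2) (.p2 7 10 11 6 2)))))) (.nd 6 10 (.p1 6 10 2 7 3) (.nd 11 10 (.p1 11 10 2 7 3)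
  (.nd 11 7 (.p1 10 11 2 7 3) (.nd 6 7 (.p2 10 6 7 2 11) (.nd 2 6 (.p2 10 7 11 6 2) (.p1 10 7 6 11
  2))))))))))))))))))))

def t3 : T :=
  (.nd 0 8 (.nd 0 9 t2 (.nd 1 9 (.c3 0 1 9) (.nd 1 4 (.nd 8 4 (.p1 9 0 1 8 4) (.p2 9 0 1 8 4))
  (.nd 8 4 (.p2 9 0 8 1 4) (.nd 1 5 (.nd 8 5 (.p1 0 4 1 8 5) (.p2 0 4 1 8 5)) (.nd 1 2 (.nd 2 3
  (.p2 0 4 1 3 2) (.nd 4 3 (.p1 0 4 1 3 2) (.nd 8 11 (.p2 0 3 4 11 8) (.nd 11 0 (.p2 11 0 3 8 4)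
  (.nd 3 11 (.p1 0 3 4 11 8) (.p2 0 11 3 8 4)))))) (.nd 3 4 (.nd 8 11 (.p2 0 3 4 11 8) (.nd 11 0
  (.p2 11 0 3 8 4) (.nd 3 11 (.p1 0 3 4 11 8) (.p2 0 11 3 8 4)))) (.nd 3 2 (.p2 0 4 3 1 2) (.nd 3
  7 (.nd 8 7 (.p1 0 4 3 8 7) (.p2 0 4 3 8 7)) (.nd 3 11 (.nd 8 11 (.p1 0 4 3 8 11) (.p2 0 4 3 8
  11)) (.nd 1 10 (.nd 2 5 (.nd 10 6 (.p2 2 5 1 6 10) (.nd 6 2 (.p2 6 2 5 10 1) (.nd 5 6 (.p1 2 5 1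
  6 10) (.p2 2 6 5 10 1)))) (.nd 10 6 (.p2 5 2 1 6 10) (.nd 2 6 (.p1 5 2 1 6 10) (.nd 5 6 (.nd 6 9
  (.p1 5 6 2 9 1) (.nd 5 9 (.p1 5 9 1 6 10) (.p1 9 5 1 6 10))) (.nd 5 9 (.p1 6 5 2 9 1) (.nd 6 9
  (.p2 6 9 5 10 1) (.p2 9 6 5 10 1))))))) (.nd 3 6 (.nd 6 2 (.c3 2 3 6) (.nd 2 11 (.nd 6 10 (.p2 2
  11 3 10 6) (.nd 10 2 (.p2 10 2 11 6 3) (.nd 11 10 (.p1 2 11 3 10 6) (.p2 2 10 11 6 3)))) (.nd 6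
  10 (.p2 11 2 3 10 6) (.nd 2 10 (.p1 11 2 3 10 6) (.nd 7 10 (.nd 11 7 (.p1 11 7 3 10 6) (.nd 10
  11 (.p2 7 10 11 6 2) (.p2 7 11 10 3 2))) (.nd 11 10 (.p1 11 10 2 7 3) (.nd 7 11 (.p2 10 7 11 6
  2) (.p1 10 11 2 7 3)))))))) (.nd 2 5 (.nd 6 10 (.nd 5 6 (.p2 2 5 6 1 10) (.nd 2 6 (.p1 2 6 5 10
  1) (.nd 2 10 (.p1 6 2 5 10 1) (.nd 10 9 (.p1 6 10 2 9 1) (.nd 9 6 (.p1 9 6 5 10 1) (.p2 6 9 10 5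
  2)))))) (.nd 5 6 (.nd 6 2 (.c3 2 5 6) (.nd 10 11 (.nd 2 10 (.p1 2 10 6 11 3) (.nd 7 10 (.p1 7 10
  6 11 3) (.nd 2 11 (.p1 10 2 6 11 3) (.nd 11 7 (.p1 10 11 2 7 3) (.p2 10 7 11 6 2))))) (.nd 2 11
  (.p2 2 11 10 3 6) (.nd 7 11 (.p2 7 11 10 3 6) (.nd 2 10 (.p2 11 2 10 3 6) (.nd 7 10 (.p2 11 7 10
  3 2) (.p1 11 10 2 7 3))))))) (.nd 2 10 (.p2 2 10 6 1 5) (.nd 9 10 (.p2 9 10 6 1 5) (.nd 2 6 (.p2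
  10 2 6 1 5) (.nd 9 6 (.p2 10 9 6 1 2) (.p1 10 6 2 9 1))))))) (.nd 6 9 (.nd 2 6 (.p2 5 2 6 1 9)
  (.nd 5 6 (.p1 5 6 2 9 1) (.nd 5 9 (.p1 6 5 2 9 1) (.nd 9 10 (.p1 6 9 5 10 1) (.nd 10 6 (.p1 10 6
  2 9 1) (.p2 6 10 9 2 5)))))) (.nd 2 6 (.nd 6 10 (.p2 5 2 6 1 10) (.nd 10 11 (.nd 2 10 (.p1 2 10
  6 11 3) (.nd 7 10 (.p1 7 10 6 11 3) (.nd 2 11 (.p1 10 2 6 11 3) (.nd 11 7 (.p1 10 11 2 7 3) (.p2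
  10 7 11 6 2))))) (.nd 2 11 (.p2 2 11 10 3 6) (.nd 7 11 (.p2 7 11 10 3 6) (.nd 2 10 (.p2 11 2 10
  3 6) (.nd 7 10 (.p2 11 7 10 3 2) (.p1 11 10 2 7 3))))))) (.nd 5 9 (.p2 5 9 6 1 2) (.nd 5 6 (.p2
  9 5 6 1 2) (.nd 10 9 (.p2 10 9 6 1 2) (.nd 6 10 (.p1 9 6 5 10 1) (.p2 9 10 6 1
  2)))))))))))))))))))) (.nd 4 5 (.nd 5 9 (.p2 8 0 4 9 5) (.nd 9 8 (.p2 9 8 0 5 4) (.nd 0 9 (.p1 8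
  0 4 9 5) (.nd 5 1 (.p1 8 9 0 5 1) (.p2 8 9 0 5 1))))) (.nd 5 9 (.nd 9 8 (.p2 5 9 8 1 0) (.nd 0 9
  (.nd 1 4 (.nd 9 1 (.p2 8 0 9 4 1) (.nd 4 7 (.nd 7 11 (.p2 8 0 4 11 7) (.nd 11 8 (.p2 11 8 0 7 4)
  (.nd 0 11 (.p1 8 0 4 11 7) (.nd 7 3 (.p1 8 11 0 7 3) (.p2 8 11 0 7 3))))) (.nd 7 11 (.nd 11 8
  (.p2 7 11 8 3 0) (.nd 0 11 (.nd 3 4 (.nd 11 3 (.p2 8 0 11 4 3) (.nd 9 10 (.nd 11 10 (.p1 8 0 9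
  11 10) (.p2 8 0 9 11 10)) (.nd 11 10 (.p2 8 0 11 9 10) (.nd 2 11 (.nd 6 9 (.nd 1 2 (.nd 2 3 (.nd
  5 1 (.p2 5 1 2 4 3) (.nd 5 2 (.p2 1 5 2 4 3) (.nd 10 1 (.p2 10 1 2 9 5) (.nd 2 10 (.p1 1 2 5 10
  9) (.p2 1 10 2 9 5))))) (.nd 2 5 (.nd 2 10 (.p1 1 2 5 10 9) (.nd 1 10 (.p2 1 10 2 9 5) (.p2 10 1
  2 9 5))) (.nd 2 6 (.nd 1 5 (.p2 1 5 2 9 6) (.p2 5 1 2 9 6)) (.nd 6 7 (.nd 3 6 (.p1 3 6 2 7 11)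
  (.nd 3 7 (.p1 6 3 2 7 11) (.nd 7 10 (.p1 6 7 3 10 11) (.nd 10 6 (.p1 10 6 2 7 11) (.p2 6 10 7 2
  3))))) (.nd 3 7 (.p2 3 7 6 11 2) (.nd 3 6 (.p2 7 3 6 11 2) (.nd 2 10 (.p2 7 6 3 10 2) (.nd 10 7
  (.p2 10 7 6 11 2) (.nd 6 10 (.p1 7 6 3 10 2) (.p2 7 10 6 11 2)))))))))) (.nd 2 6 (.nd 5 2 (.p1 5
  2 1 6 9) (.nd 10 2 (.p1 10 2 1 6 9) (.nd 1 5 (.nd 1 10 (.p1 2 1 5 10 9) (.nd 10 6 (.p1 2 10 1 6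
  9) (.p2 2 6 10 5 1))) (.nd 5 6 (.p1 2 5 1 6 9) (.nd 6 10 (.p1 2 6 5 10 9) (.nd 10 1 (.p1 2 10 1
  6 9) (.p2 2 1 10 5 6))))))) (.nd 5 6 (.p2 5 6 2 9 1) (.nd 5 2 (.p2 6 5 2 9 1) (.nd 10 6 (.p2 10
  6 2 9 1) (.nd 2 10 (.p1 6 2 5 10 9) (.p2 6 10 2 9 1))))))) (.nd 6 5 (.c3 5 9 6) (.nd 6 10 (.c3 6
  10 9) (.nd 1 10 (.nd 6 2 (.p2 1 10 9 2 6) (.nd 10 2 (.p1 1 10 2 9 6) (.nd 1 2 (.nd 2 5 (.p1 1 2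
  5 10 6) (.nd 1 5 (.p1 1 5 2 9 6) (.p1 5 1 2 9 6))) (.nd 1 5 (.p1 2 1 5 10 6) (.nd 2 5 (.p2 2 5 1
  6 9) (.p2 5 2 1 6 9)))))) (.nd 2 10 (.p2 2 10 1 6 9) (.nd 6 2 (.p2 10 1 9 2 6) (.nd 2 1 (.p2 10
  2 1 6 9) (.p1 10 1 2 9 6)))))))) (.nd 2 3 (.c3 2 3 11) (.nd 2 10 (.c3 2 10 11) (.nd 7 10 (.nd 2
  6 (.p2 7 10 11 6 2) (.nd 10 6 (.p1 7 10 6 11 2) (.nd 3 6 (.nd 7 3 (.p1 7 3 6 11 2) (.nd 6 7 (.p2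
  3 6 7 2 10) (.p2 3 7 6 11 10))) (.nd 7 6 (.p1 7 6 3 10 2) (.nd 3 7 (.p2 6 3 7 2 10) (.p1 6 7 3
  10 2)))))) (.nd 6 10 (.p2 6 10 7 2 11) (.nd 6 7 (.p2 10 6 7 2 11) (.nd 6 3 (.p2 10 7 6 11 3)
  (.nd 2 6 (.p2 10 7 11 6 2) (.nd 3 7 (.p1 3 7 6 11 2) (.p1 7 3 6 11 2))))))))))))) (.nd 11 3 (.p1
  8 0 4 11 3) (.p2 8 0 4 11 3))) (.nd 7 8 (.p2 7 8 11 4 0) (.p2 8 7 11 4 0)))) (.nd 0 11 (.p2 8 0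
  11 4 7) (.nd 7 8 (.p2 11 7 8 3 0) (.nd 8 11 (.p1 8 11 0 7 4) (.p1 11 8 0 7 4))))))) (.nd 9 1
  (.p1 8 0 4 9 1) (.p2 8 0 4 9 1))) (.nd 5 8 (.p2 5 8 9 4 0) (.p2 8 5 9 4 0)))) (.nd 0 9 (.p2 8 0
  9 4 5) (.nd 5 8 (.p2 9 5 8 1 0) (.nd 8 9 (.p1 8 9 0 5 4) (.p1 9 8 0 5 4)))))))

def t4 : T :=
  (.nd 1 4 (.nd 4 5 (.nd 9 5 (.p1 0 1 4 9 5) (.p2 0 1 4 9 5)) (.nd 9 5 (.p2 0 1 9 4 5) (.nd 1 10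
  (.nd 2 10 (.nd 6 10 (.nd 0 8 (.nd 9 10 (.nd 11 10 (.p1 0 8 9 11 10) (.p2 0 8 9 11 10)) (.nd 11
  10 (.p2 0 8 11 9 10) (.nd 2 3 (.nd 6 2 (.p1 6 2 3 10 11) (.nd 3 6 (.p2 2 3 6 11 10) (.p1 2 6 3
  10 11))) (.nd 2 6 (.p2 3 2 6 11 10) (.nd 5 6 (.p2 5 6 2 9 10) (.nd 5 2 (.p2 6 5 2 9 10) (.p1 6 2
  5 10 9))))))) (.nd 9 10 (.nd 11 10 (.p1 8 0 9 11 10) (.p2 8 0 9 11 10)) (.nd 11 10 (.p2 8 0 11 9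
  10) (.nd 2 3 (.nd 6 2 (.p1 6 2 3 10 11) (.nd 3 6 (.p2 2 3 6 11 10) (.p1 2 6 3 10 11))) (.nd 2 6
  (.p2 3 2 6 11 10) (.nd 5 6 (.p2 5 6 2 9 10) (.nd 5 2 (.p2 6 5 2 9 10) (.p1 6 2 5 10 9))))))))
  (.nd 6 2 (.c3 2 10 6) (.nd 1 2 (.nd 6 5 (.p2 1 2 10 5 6) (.nd 2 5 (.p1 1 2 5 10 6) (.nd 1 5 (.nd
  9 6 (.p1 1 5 2 9 6) (.p2 1 5 2 9 6)) (.nd 9 6 (.p1 5 1 2 9 6) (.p2 5 1 2 9 6))))) (.nd 6 5 (.p2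
  2 1 10 5 6) (.nd 5 2 (.p2 5 2 1 6 10) (.nd 1 5 (.p1 2 1 5 10 6) (.nd 6 9 (.p1 2 5 1 6 9) (.p2 2
  5 1 6 9)))))))) (.nd 2 1 (.c3 1 10 2) (.nd 2 5 (.p2 1 10 2 9 5) (.nd 2 3 (.nd 1 5 (.p2 1 5 2 4
  3) (.p2 5 1 2 4 3)) (.nd 2 6 (.nd 6 9 (.p2 1 10 2 9 6) (.nd 1 5 (.p1 1 5 2 9 6) (.p1 5 1 2 9
  6))) (.nd 9 10 (.nd 1 5 (.p2 1 5 9 2 10) (.p2 5 1 9 2 10)) (.nd 10 11 (.nd 2 11 (.nd 6 7 (.nd 3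
  6 (.p1 3 6 2 7 11) (.nd 3 7 (.p1 6 3 2 7 11) (.nd 7 10 (.p1 6 7 3 10 2) (.nd 6 10 (.p1 6 10 2 7
  11) (.p1 10 6 2 7 11))))) (.nd 3 7 (.p2 3 7 6 11 2) (.nd 3 6 (.p2 7 3 6 11 2) (.nd 10 7 (.p2 10
  7 6 11 2) (.nd 6 10 (.p1 7 6 3 10 2) (.p2 7 10 6 11 2)))))) (.nd 6 7 (.nd 3 6 (.p2 3 6 7 2 11)
  (.nd 3 7 (.p2 6 3 7 2 11) (.nd 10 6 (.p2 10 6 7 2 3) (.nd 7 10 (.p1 6 7 3 10 2) (.p2 6 10 7 2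
  3))))) (.nd 3 7 (.p1 3 7 6 11 2) (.nd 3 6 (.p1 7 3 6 11 2) (.nd 6 10 (.p1 7 6 3 10 2) (.nd 7 10
  (.p1 7 10 6 11 2) (.p1 10 7 6 11 2))))))) (.nd 0 8 (.p2 0 8 11 9 10) (.p2 8 0 11 9 10)))))))))
  (.nd 9 10 (.c3 1 9 10) (.nd 6 9 (.nd 2 6 (.nd 1 2 (.p2 10 1 2 9 6) (.nd 5 2 (.p1 5 2 1 6 9) (.nd
  10 2 (.p1 10 2 1 6 9) (.nd 10 6 (.p1 2 10 1 6 9) (.nd 5 6 (.p2 2 5 6 1 10) (.nd 1 5 (.p2 2 6 10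
  5 1) (.p1 2 6 5 10 1))))))) (.nd 1 2 (.nd 2 10 (.c3 1 2 10) (.nd 2 5 (.p2 10 1 2 9 5) (.nd 2 3
  (.nd 1 5 (.p2 1 5 2 4 3) (.p2 5 1 2 4 3)) (.nd 10 11 (.nd 2 11 (.nd 6 7 (.nd 3 6 (.p1 3 6 2 7
  11) (.nd 3 7 (.p1 6 3 2 7 11) (.nd 7 10 (.p1 6 7 3 10 2) (.nd 6 10 (.p1 6 10 2 7 11) (.p1 10 6 2
  7 11))))) (.nd 3 7 (.p2 3 7 6 11 2) (.nd 3 6 (.p2 7 3 6 11 2) (.nd 10 7 (.p2 10 7 6 11 2) (.nd 6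
  10 (.p1 7 6 3 10 2) (.p2 7 10 6 11 2)))))) (.nd 6 7 (.nd 3 6 (.p2 3 6 7 2 11) (.nd 3 7 (.p2 6 3
  7 2 11) (.nd 10 6 (.p2 10 6 7 2 3) (.nd 7 10 (.p1 6 7 3 10 2) (.p2 6 10 7 2 3))))) (.nd 3 7 (.p1
  3 7 6 11 2) (.nd 3 6 (.p1 7 3 6 11 2) (.nd 6 10 (.p1 7 6 3 10 2) (.nd 7 10 (.p1 7 10 6 11 2)
  (.p1 10 7 6 11 2))))))) (.nd 0 8 (.p2 0 8 11 9 10) (.p2 8 0 11 9 10)))))) (.nd 5 6 (.p2 5 6 2 9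
  1) (.nd 5 2 (.p2 6 5 2 9 1) (.nd 10 6 (.p2 10 6 2 9 1) (.nd 2 10 (.p1 6 2 5 10 9) (.p2 6 10 2 9
  1))))))) (.nd 2 10 (.p2 2 10 1 6 9) (.nd 6 2 (.p2 10 1 9 2 6) (.nd 2 1 (.p2 10 2 1 6 9) (.p1 10
  1 2 9 6))))))))) (.nd 0 8 (.p2 0 8 4 9 1) (.p2 8 0 4 9 1)))

def t5 : T :=
  (.nd 0 4 (.nd 0 3 t3 (.nd 4 3 (.c3 0 4 3) (.nd 4 7 (.nd 7 11 (.p2 3 0 4 11 7) (.nd 11 3 (.p2 11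
  3 0 7 4) (.nd 0 11 (.p1 3 0 4 11 7) (.p2 3 11 0 7 4)))) (.nd 7 11 (.nd 0 11 (.nd 11 3 (.c3 0 11
  3) (.nd 4 8 (.nd 11 8 (.p1 3 0 4 11 8) (.p2 3 0 4 11 8)) (.nd 11 8 (.p2 3 0 11 4 8) (.nd 1 9
  (.nd 9 0 (.c3 0 1 9) (.nd 9 8 (.p2 0 1 9 4 8) t4)) (.nd 1 5 (.nd 0 9 (.nd 5 8 (.p2 0 9 1 8 5)
  (.nd 9 8 (.p1 0 9 1 8 5) (.nd 0 8 (.nd 4 1 (.p1 0 8 4 9 1) (.p2 0 8 9 4 1)) (.nd 4 1 (.p1 8 0 4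
  9 1) (.p2 8 0 9 4 1))))) (.nd 8 9 (.p2 8 9 0 5 1) (.nd 5 8 (.p2 9 0 1 8 5) (.nd 8 0 (.p2 9 8 0 5
  1) (.p1 9 0 1 8 5))))) (.nd 0 8 (.nd 1 4 (.nd 9 0 (.p1 9 0 1 8 4) (.nd 8 9 (.p2 0 8 9 4 1) (.p1
  0 9 1 8 4))) (.nd 8 9 (.p1 0 8 4 9 1) (.nd 0 9 (.p2 0 9 8 1 4) (.p2 9 0 8 1 4)))) (.nd 5 8 (.nd
  9 5 (.p2 9 5 8 1 0) (.nd 9 8 (.p2 5 9 8 1 0) (.nd 4 1 (.p1 5 8 4 9 1) (.p2 5 8 9 4 1)))) (.nd 9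
  8 (.p1 9 8 0 5 1) (.nd 0 9 (.nd 4 1 (.p1 8 0 4 9 1) (.p2 8 0 9 4 1)) (.nd 9 5 (.p1 8 9 0 5 1)
  (.p2 8 5 9 4 0))))))))))) (.nd 3 7 (.p2 3 7 11 4 0) (.nd 3 11 (.p2 7 3 11 4 0) (.nd 0 8 (.p2 7
  11 3 8 0) (.nd 8 7 (.p2 8 7 11 4 0) (.nd 11 8 (.p1 7 11 3 8 0) (.p2 7 8 11 4 0))))))) (.nd 0 11
  (.p2 3 0 11 4 7) (.nd 3 11 (.p1 3 11 0 7 4) (.nd 8 11 (.p1 8 11 0 7 4) (.nd 3 7 (.p1 11 3 0 7 4)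
  (.nd 0 8 (.p2 11 7 3 8 0) (.nd 8 7 (.p2 11 8 7 0 3) (.p1 11 7 3 8 0))))))))))) (.nd 1 5 (.nd 5 8
  (.p2 4 0 1 8 5) (.nd 8 4 (.p2 8 4 0 5 1) (.nd 0 8 (.p1 4 0 1 8 5) (.p2 4 8 0 5 1)))) (.nd 5 8
  (.nd 0 8 (.nd 1 9 (.nd 8 9 (.p1 4 0 1 8 9) (.p2 4 0 1 8 9)) (.nd 7 8 (.nd 3 7 (.nd 0 3 (.p2 4 0
  3 8 7) (.nd 4 3 (.p1 4 3 0 7 8) (.nd 11 3 (.p1 11 3 0 7 8) (.nd 4 7 (.p1 3 4 0 7 8) (.nd 0 11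
  (.p2 3 7 4 11 0) (.nd 11 7 (.p2 3 11 7 0 4) (.p1 3 7 4 11 0))))))) (.nd 0 3 (.nd 1 2 (.nd 3 2
  (.p1 4 0 1 3 2) (.p2 4 0 1 3 2)) (.nd 3 2 (.p2 4 0 3 1 2) (.nd 3 11 (.nd 8 11 (.p1 4 0 3 8 11)
  (.p2 4 0 3 8 11)) (.nd 1 10 (.nd 2 5 (.nd 10 6 (.p2 2 5 1 6 10) (.nd 6 2 (.p2 6 2 5 10 1) (.nd 5
  6 (.p1 2 5 1 6 10) (.p2 2 6 5 10 1)))) (.nd 10 6 (.p2 5 2 1 6 10) (.nd 2 6 (.p1 5 2 1 6 10) (.nd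
  5 6 (.nd 6 9 (.p1 5 6 2 9 1) (.nd 5 9 (.p1 5 9 1 6 10) (.p1 9 5 1 6 10))) (.nd 5 9 (.p1 6 5 2 9
  1) (.nd 6 9 (.p2 6 9 5 10 1) (.p2 9 6 5 10 1))))))) (.nd 3 6 (.nd 6 2 (.c3 2 3 6) (.nd 2 11 (.nd
  6 10 (.p2 2 11 3 10 6) (.nd 10 2 (.p2 10 2 11 6 3) (.nd 11 10 (.p1 2 11 3 10 6) (.p2 2 10 11 6
  3)))) (.nd 6 10 (.p2 11 2 3 10 6) (.nd 2 10 (.p1 11 2 3 10 6) (.nd 7 10 (.nd 11 7 (.p1 11 7 3 10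
  6) (.nd 10 11 (.p2 7 10 11 6 2) (.p2 7 11 10 3 2))) (.nd 11 10 (.p1 11 10 2 7 3) (.nd 7 11 (.p2
  10 7 11 6 2) (.p1 10 11 2 7 3)))))))) (.nd 2 5 (.nd 6 10 (.nd 5 6 (.p2 2 5 6 1 10) (.nd 2 6 (.p1
  2 6 5 10 1) (.nd 2 10 (.p1 6 2 5 10 1) (.nd 10 9 (.p1 6 10 2 9 1) (.nd 9 6 (.p1 9 6 5 10 1) (.p2
  6 9 10 5 2)))))) (.nd 5 6 (.nd 6 2 (.c3 2 5 6) (.nd 10 11 (.nd 2 10 (.p1 2 10 6 11 3) (.nd 7 10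
  (.p1 7 10 6 11 3) (.nd 2 11 (.p1 10 2 6 11 3) (.nd 11 7 (.p1 10 11 2 7 3) (.p2 10 7 11 6 2)))))
  (.nd 2 11 (.p2 2 11 10 3 6) (.nd 7 11 (.p2 7 11 10 3 6) (.nd 2 10 (.p2 11 2 10 3 6) (.nd 7 10
  (.p2 11 7 10 3 2) (.p1 11 10 2 7 3))))))) (.nd 2 10 (.p2 2 10 6 1 5) (.nd 9 10 (.p2 9 10 6 1 5)
  (.nd 2 6 (.p2 10 2 6 1 5) (.nd 9 6 (.p2 10 9 6 1 2) (.p1 10 6 2 9 1))))))) (.nd 6 9 (.nd 2 6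
  (.p2 5 2 6 1 9) (.nd 5 6 (.p1 5 6 2 9 1) (.nd 5 9 (.p1 6 5 2 9 1) (.nd 9 10 (.p1 6 9 5 10 1)
  (.nd 10 6 (.p1 10 6 2 9 1) (.p2 6 10 9 2 5)))))) (.nd 2 6 (.nd 6 10 (.p2 5 2 6 1 10) (.nd 10 11
  (.nd 2 10 (.p1 2 10 6 11 3) (.nd 7 10 (.p1 7 10 6 11 3) (.nd 2 11 (.p1 10 2 6 11 3) (.nd 11 7
  (.p1 10 11 2 7 3) (.p2 10 7 11 6 2))))) (.nd 2 11 (.p2 2 11 10 3 6) (.nd 7 11 (.p2 7 11 10 3 6)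
  (.nd 2 10 (.p2 11 2 10 3 6) (.nd 7 10 (.p2 11 7 10 3 2) (.p1 11 10 2 7 3))))))) (.nd 5 9 (.p2 5
  9 6 1 2) (.nd 5 6 (.p2 9 5 6 1 2) (.nd 10 9 (.p2 10 9 6 1 2) (.nd 6 10 (.p1 9 6 5 10 1) (.p2 9
  10 6 1 2))))))))))))) (.nd 4 7 (.p2 4 7 3 8 0) (.nd 4 3 (.p2 7 4 3 8 0) (.nd 11 7 (.p2 11 7 3 8
  0) (.nd 0 11 (.p2 7 3 4 11 0) (.nd 11 3 (.p2 7 11 3 8 0) (.p1 7 3 4 11 0)))))))) (.nd 3 4 (.p2 3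
  4 0 7 8) (.nd 7 3 (.p2 4 0 8 3 7) (.nd 3 0 (.p2 4 3 0 7 8) (.p1 4 0 3 8 7)))))) (.nd 4 5 (.p2 4
  5 8 1 0) (.nd 4 8 (.p2 5 4 8 1 0) (.nd 0 9 (.p2 5 8 4 9 0) (.nd 9 5 (.p2 9 5 8 1 0) (.nd 8 9
  (.p1 5 8 4 9 0) (.p2 5 9 8 1 0))))))) (.nd 0 8 (.p2 4 0 8 1 5) (.nd 4 8 (.p1 4 8 0 5 1) (.nd 4 5
  (.p1 8 4 0 5 1) (.nd 9 8 (.p1 9 8 0 5 1) (.nd 0 9 (.p2 8 5 4 9 0) (.nd 9 5 (.p2 8 9 5 0 4) (.p1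
  8 5 4 9 0))))))))))

def t6 : T :=
  (.nd 3 11 (.nd 11 0 (.c3 0 3 11) (.nd 11 8 (.p2 0 3 11 4 8) (.nd 3 4 (.nd 4 7 (.nd 11 7 (.p1 0 3
  4 11 7) (.p2 0 3 4 11 7)) (.nd 11 7 (.p2 0 3 11 4 7) (.nd 1 10 (.nd 1 2 (.nd 2 3 (.nd 5 1 (.p2 5
  1 2 4 3) (.nd 5 2 (.p2 1 5 2 4 3) (.nd 10 2 (.p2 1 10 2 9 5) (.nd 10 9 (.p1 1 2 5 10 9) (.p2 1 2
  5 10 9))))) (.nd 2 5 (.nd 9 10 (.p2 1 2 5 10 9) (.nd 10 2 (.p2 1 10 2 9 5) (.p1 1 2 5 10 9)))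
  (.nd 2 6 (.nd 1 5 (.nd 9 6 (.p1 1 5 2 9 6) (.p2 1 5 2 9 6)) (.nd 9 6 (.p1 5 1 2 9 6) (.p2 5 1 2
  9 6))) (.nd 6 10 (.nd 7 10 (.nd 0 8 (.nd 9 10 (.nd 11 10 (.p1 0 8 9 11 10) (.p2 0 8 9 11 10))
  (.nd 11 10 (.p2 0 8 11 9 10) (.nd 3 6 (.nd 7 3 (.p2 7 3 6 11 10) (.nd 7 6 (.p2 3 7 6 11 10) (.nd
  2 10 (.p1 3 6 2 7 10) (.p2 3 6 7 2 10)))) (.nd 7 6 (.p1 7 6 3 10 11) (.nd 7 3 (.p1 6 7 3 10 11)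
  (.nd 10 2 (.p2 6 3 7 2 10) (.p1 6 3 2 7 10))))))) (.nd 9 10 (.nd 11 10 (.p1 8 0 9 11 10) (.p2 8
  0 9 11 10)) (.nd 11 10 (.p2 8 0 11 9 10) (.nd 3 6 (.nd 7 3 (.p2 7 3 6 11 10) (.nd 7 6 (.p2 3 7 6
  11 10) (.nd 2 10 (.p1 3 6 2 7 10) (.p2 3 6 7 2 10)))) (.nd 7 6 (.p1 7 6 3 10 11) (.nd 7 3 (.p1 6
  7 3 10 11) (.nd 10 2 (.p2 6 3 7 2 10) (.p1 6 3 2 7 10)))))))) (.nd 7 6 (.c3 6 10 7) (.nd 7 3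
  (.p2 6 10 7 2 3) (.nd 11 2 (.p2 6 10 7 2 11) (.nd 3 6 (.p1 3 6 2 7 11) (.p1 6 3 2 7 11))))))
  (.nd 2 11 (.nd 6 7 (.p1 10 6 2 7 11) (.nd 7 10 (.p2 7 10 6 11 2) (.p2 10 7 6 11 2))) (.nd 6 7
  (.p2 10 6 7 2 11) (.nd 3 7 (.p1 3 7 6 11 2) (.nd 3 6 (.p1 7 3 6 11 2) (.nd 10 7 (.p1 10 7 6 11
  2) (.p2 7 10 6 11 3)))))))))) (.nd 1 5 (.nd 10 9 (.p1 2 1 5 10 9) (.p2 2 1 5 10 9)) (.nd 2 5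
  (.nd 9 6 (.p2 2 5 1 6 9) (.nd 6 2 (.p2 6 2 5 10 1) (.nd 5 6 (.p1 2 5 1 6 9) (.p2 2 6 5 10 1))))
  (.nd 9 6 (.p2 5 2 1 6 9) (.nd 6 5 (.p2 6 5 2 9 1) (.nd 2 6 (.p1 5 2 1 6 9) (.p2 5 6 2 9 1)))))))
  (.nd 9 10 (.c3 1 9 10) (.nd 2 10 (.p2 2 10 1 11 0) (.nd 2 1 (.p2 10 2 1 11 0) (.nd 2 5 (.p2 10 1
  2 9 5) (.nd 2 6 (.nd 9 6 (.p1 10 1 2 9 6) (.nd 1 5 (.p2 1 5 2 9 6) (.p2 5 1 2 9 6))) (.nd 2 3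
  (.nd 1 5 (.p2 1 5 2 4 3) (.p2 5 1 2 4 3)) (.nd 10 11 (.nd 2 11 (.nd 6 7 (.nd 3 6 (.p1 3 6 2 7
  11) (.nd 3 7 (.p1 6 3 2 7 11) (.nd 7 10 (.p1 6 7 3 10 2) (.nd 6 10 (.p1 6 10 2 7 11) (.p1 10 6 2
  7 11))))) (.nd 3 7 (.p2 3 7 6 11 2) (.nd 3 6 (.p2 7 3 6 11 2) (.nd 10 7 (.p2 10 7 6 11 2) (.nd 6
  10 (.p1 7 6 3 10 2) (.p2 7 10 6 11 2)))))) (.nd 6 7 (.nd 3 6 (.p2 3 6 7 2 11) (.nd 3 7 (.p2 6 3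
  7 2 11) (.nd 10 6 (.p2 10 6 7 2 3) (.nd 7 10 (.p1 6 7 3 10 2) (.p2 6 10 7 2 3))))) (.nd 3 7 (.p1
  3 7 6 11 2) (.nd 3 6 (.p1 7 3 6 11 2) (.nd 6 10 (.p1 7 6 3 10 2) (.nd 7 10 (.p1 7 10 6 11 2)
  (.p1 10 7 6 11 2))))))) (.nd 0 8 (.p2 0 8 11 9 10) (.p2 8 0 11 9 10)))))))))))) (.nd 0 8 (.p2 0
  8 4 11 3) (.p2 8 0 4 11 3))))) (.nd 7 11 (.nd 3 4 (.nd 11 8 (.p1 7 11 3 8 4) (.nd 0 8 (.p2 0 8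
  11 4 3) (.nd 7 8 (.p2 7 8 11 4 3) (.nd 0 11 (.p2 8 0 11 4 3) (.p2 8 7 11 4 0))))) (.nd 11 8 (.p2
  7 11 8 3 4) (.nd 0 8 (.p1 0 8 4 11 3) (.nd 7 8 (.p1 7 8 4 11 3) (.nd 7 4 (.p1 8 7 4 11 3) (.p2 8
  0 4 11 7)))))) (.nd 7 8 (.nd 8 11 (.c3 7 8 11) (.nd 8 0 (.p2 11 7 8 3 0) (.nd 4 3 (.p2 11 7 8 3
  4) (.nd 0 11 (.p1 0 11 3 8 4) (.p1 11 0 3 8 4))))) (.nd 0 8 (.nd 3 4 (.nd 11 0 (.p1 11 0 3 8 4)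
  (.nd 8 11 (.p2 0 8 11 4 3) (.p1 0 11 3 8 4))) (.nd 8 11 (.p1 0 8 4 11 3) (.nd 0 11 (.p2 0 11 8 3
  4) (.p2 11 0 8 3 4)))) (.nd 3 7 (.nd 11 8 (.p2 11 8 0 7 3) (.nd 11 0 (.p2 8 11 0 7 3) (.nd 4 3
  (.p1 8 0 4 11 3) (.p2 8 0 11 4 3)))) (.nd 11 8 (.p1 11 8 0 7 3) (.nd 11 0 (.p1 8 11 0 7 3) (.nd
  3 4 (.p2 8 0 11 4 3) (.p1 8 0 4 11 3)))))))))

def t7 : T :=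
  (.nd 4 8 (.nd 9 8 (.p1 1 0 4 9 8) (.p2 1 0 4 9 8)) (.nd 9 8 (.p2 1 0 9 4 8) (.nd 0 3 t6 (.nd 4 3
  (.c3 0 4 3) (.nd 4 7 (.nd 7 11 (.p2 3 0 4 11 7) (.nd 11 3 (.p2 11 3 0 7 4) (.nd 0 11 (.p1 3 0 4
  11 7) (.p2 3 11 0 7 4)))) (.nd 7 11 (.nd 0 11 (.nd 11 3 (.c3 0 11 3) (.nd 11 8 (.p2 3 0 11 4 8)
  (.nd 1 10 (.nd 1 2 (.nd 2 3 (.nd 5 1 (.p2 5 1 2 4 3) (.nd 5 2 (.p2 1 5 2 4 3) (.nd 10 2 (.p2 1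
  10 2 9 5) (.nd 10 9 (.p1 1 2 5 10 9) (.p2 1 2 5 10 9))))) (.nd 2 5 (.nd 9 10 (.p2 1 2 5 10 9)
  (.nd 10 2 (.p2 1 10 2 9 5) (.p1 1 2 5 10 9))) (.nd 2 6 (.nd 1 5 (.nd 9 6 (.p1 1 5 2 9 6) (.p2 1
  5 2 9 6)) (.nd 9 6 (.p1 5 1 2 9 6) (.p2 5 1 2 9 6))) (.nd 6 10 (.nd 7 10 (.nd 0 8 (.nd 9 10 (.nd
  11 10 (.p1 0 8 9 11 10) (.p2 0 8 9 11 10)) (.nd 11 10 (.p2 0 8 11 9 10) (.nd 3 6 (.nd 7 3 (.p2 7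
  3 6 11 10) (.nd 7 6 (.p2 3 7 6 11 10) (.nd 2 10 (.p1 3 6 2 7 10) (.p2 3 6 7 2 10)))) (.nd 7 6
  (.p1 7 6 3 10 11) (.nd 7 3 (.p1 6 7 3 10 11) (.nd 10 2 (.p2 6 3 7 2 10) (.p1 6 3 2 7 10)))))))
  (.nd 9 10 (.nd 11 10 (.p1 8 0 9 11 10) (.p2 8 0 9 11 10)) (.nd 11 10 (.p2 8 0 11 9 10) (.nd 3 6
  (.nd 7 3 (.p2 7 3 6 11 10) (.nd 7 6 (.p2 3 7 6 11 10) (.nd 2 10 (.p1 3 6 2 7 10) (.p2 3 6 7 2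
  10)))) (.nd 7 6 (.p1 7 6 3 10 11) (.nd 7 3 (.p1 6 7 3 10 11) (.nd 10 2 (.p2 6 3 7 2 10) (.p1 6 3
  2 7 10)))))))) (.nd 7 6 (.c3 6 10 7) (.nd 7 3 (.p2 6 10 7 2 3) (.nd 11 2 (.p2 6 10 7 2 11) (.nd
  3 6 (.p1 3 6 2 7 11) (.p1 6 3 2 7 11)))))) (.nd 2 11 (.nd 6 7 (.p1 10 6 2 7 11) (.nd 7 10 (.p2 7
  10 6 11 2) (.p2 10 7 6 11 2))) (.nd 6 7 (.p2 10 6 7 2 11) (.nd 3 7 (.p1 3 7 6 11 2) (.nd 3 6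
  (.p1 7 3 6 11 2) (.nd 10 7 (.p1 10 7 6 11 2) (.p2 7 10 6 11 3)))))))))) (.nd 1 5 (.nd 10 9 (.p1
  2 1 5 10 9) (.p2 2 1 5 10 9)) (.nd 2 5 (.nd 9 6 (.p2 2 5 1 6 9) (.nd 6 2 (.p2 6 2 5 10 1) (.nd 5
  6 (.p1 2 5 1 6 9) (.p2 2 6 5 10 1)))) (.nd 9 6 (.p2 5 2 1 6 9) (.nd 6 5 (.p2 6 5 2 9 1) (.nd 2 6
  (.p1 5 2 1 6 9) (.p2 5 6 2 9 1))))))) (.nd 9 10 (.c3 1 9 10) (.nd 2 10 (.p2 2 10 1 11 0) (.nd 2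
  1 (.p2 10 2 1 11 0) (.nd 2 5 (.p2 10 1 2 9 5) (.nd 2 6 (.nd 9 6 (.p1 10 1 2 9 6) (.nd 1 5 (.p2 1
  5 2 9 6) (.p2 5 1 2 9 6))) (.nd 2 3 (.nd 1 5 (.p2 1 5 2 4 3) (.p2 5 1 2 4 3)) (.nd 10 11 (.nd 2
  11 (.nd 6 7 (.nd 3 6 (.p1 3 6 2 7 11) (.nd 3 7 (.p1 6 3 2 7 11) (.nd 7 10 (.p1 6 7 3 10 2) (.nd
  6 10 (.p1 6 10 2 7 11) (.p1 10 6 2 7 11))))) (.nd 3 7 (.p2 3 7 6 11 2) (.nd 3 6 (.p2 7 3 6 11 2)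
  (.nd 10 7 (.p2 10 7 6 11 2) (.nd 6 10 (.p1 7 6 3 10 2) (.p2 7 10 6 11 2)))))) (.nd 6 7 (.nd 3 6
  (.p2 3 6 7 2 11) (.nd 3 7 (.p2 6 3 7 2 11) (.nd 10 6 (.p2 10 6 7 2 3) (.nd 7 10 (.p1 6 7 3 10 2)
  (.p2 6 10 7 2 3))))) (.nd 3 7 (.p1 3 7 6 11 2) (.nd 3 6 (.p1 7 3 6 11 2) (.nd 6 10 (.p1 7 6 3 10
  2) (.nd 7 10 (.p1 7 10 6 11 2) (.p1 10 7 6 11 2))))))) (.nd 0 8 (.p2 0 8 11 9 10) (.p2 8 0 11 9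
  10)))))))))))) (.nd 3 7 (.p2 3 7 11 4 0) (.nd 3 11 (.p2 7 3 11 4 0) (.nd 0 8 (.p2 7 11 3 8 0)
  (.nd 8 7 (.p2 8 7 11 4 0) (.nd 11 8 (.p1 7 11 3 8 0) (.p2 7 8 11 4 0))))))) (.nd 0 11 (.p2 3 0
  11 4 7) (.nd 3 11 (.p1 3 11 0 7 4) (.nd 8 11 (.p1 8 11 0 7 4) (.nd 3 7 (.p1 11 3 0 7 4) (.nd 7 8
  (.p1 11 7 3 8 4) (.nd 8 0 (.p1 11 8 0 7 4) (.p2 11 0 8 3 7)))))))))))))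

def t8 : T :=
  (.nd 1 2 (.nd 1 5 (.nd 4 5 (.nd 5 9 (.nd 1 4 (.p2 1 4 5 0 9) (.p2 4 1 5 0 9)) (.nd 2 10 (.nd 10
  1 (.c3 1 2 10) (.nd 10 9 (.p2 1 2 10 5 9) (.nd 2 5 (.nd 5 6 (.nd 10 6 (.p1 1 2 5 10 6) (.p2 1 2
  5 10 6)) (.nd 10 6 (.p2 1 2 10 5 6) (.nd 10 11 (.nd 1 9 (.p2 1 9 10 0 11) (.p2 9 1 10 0 11))
  (.nd 7 10 (.nd 2 3 (.nd 3 4 (.nd 6 2 (.p2 6 2 3 5 4) (.nd 6 3 (.p2 2 6 3 5 4) (.nd 11 2 (.p2 11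
  2 3 10 6) (.nd 3 11 (.p1 2 3 6 11 10) (.p2 2 11 3 10 6))))) (.nd 3 6 (.nd 3 11 (.p1 2 3 6 11 10)
  (.nd 2 11 (.p2 2 11 3 10 6) (.p2 11 2 3 10 6))) (.nd 3 7 (.nd 2 6 (.p2 2 6 3 10 7) (.p2 6 2 3 10
  7)) (.nd 7 8 (.nd 4 7 (.p1 4 7 3 8 0) (.nd 4 8 (.p1 7 4 3 8 0) (.nd 8 11 (.p1 7 8 4 11 0) (.nd
  11 7 (.p1 11 7 3 8 0) (.p2 7 11 8 3 4))))) (.nd 4 8 (.p2 4 8 7 0 3) (.nd 4 7 (.p2 8 4 7 0 3)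
  (.nd 11 8 (.p2 11 8 7 0 3) (.nd 7 11 (.p1 8 7 4 11 0) (.p2 8 11 7 0 3))))))))) (.nd 3 7 (.nd 6 3
  (.p1 6 3 2 7 10) (.nd 11 3 (.p1 11 3 2 7 10) (.nd 2 6 (.nd 2 11 (.p1 3 2 6 11 10) (.nd 11 7 (.p1
  3 11 2 7 10) (.p2 3 7 11 6 2))) (.nd 6 7 (.p1 3 6 2 7 10) (.nd 7 11 (.p1 3 7 6 11 10) (.nd 11 2
  (.p1 3 11 2 7 10) (.p2 3 2 11 6 7))))))) (.nd 6 7 (.p2 6 7 3 10 2) (.nd 6 3 (.p2 7 6 3 10 2)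
  (.nd 11 7 (.p2 11 7 3 10 2) (.nd 3 11 (.p1 7 3 6 11 10) (.p2 7 11 3 10 2))))))) (.nd 7 6 (.c3 6
  10 7) (.nd 7 11 (.c3 7 11 10) (.nd 2 11 (.nd 7 3 (.p2 2 11 10 3 7) (.nd 11 3 (.p1 2 11 3 10 7)
  (.nd 2 3 (.nd 3 6 (.p1 2 3 6 11 7) (.nd 2 6 (.p1 2 6 3 10 7) (.p1 6 2 3 10 7))) (.nd 2 6 (.p1 3
  2 6 11 7) (.nd 3 6 (.p2 3 6 2 7 10) (.p2 6 3 2 7 10)))))) (.nd 3 11 (.p2 3 11 2 7 10) (.nd 7 3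
  (.p2 11 2 10 3 7) (.nd 3 2 (.p2 11 3 2 7 10) (.p1 11 2 3 10 7))))))))))) (.nd 1 9 (.p2 1 9 5 10
  2) (.p2 9 1 5 10 2))))) (.nd 2 6 (.nd 1 10 (.nd 6 9 (.p2 1 10 2 9 6) (.nd 10 9 (.p1 1 10 2 9 6)
  (.nd 1 9 (.nd 5 2 (.p1 1 9 5 10 2) (.p2 1 9 10 5 2)) (.nd 5 2 (.p1 9 1 5 10 2) (.p2 9 1 10 5
  2))))) (.nd 9 10 (.p2 9 10 1 6 2) (.nd 6 9 (.p2 10 1 2 9 6) (.nd 9 1 (.p2 10 9 1 6 2) (.p1 10 1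
  2 9 6))))) (.nd 1 9 (.nd 2 5 (.nd 10 1 (.p1 10 1 2 9 5) (.nd 9 10 (.p2 1 9 10 5 2) (.p1 1 10 2 9
  5))) (.nd 9 10 (.p1 1 9 5 10 2) (.nd 1 10 (.p2 1 10 9 2 5) (.p2 10 1 9 2 5)))) (.nd 6 9 (.nd 10
  6 (.p2 10 6 9 2 1) (.nd 10 9 (.p2 6 10 9 2 1) (.nd 5 2 (.p1 6 9 5 10 2) (.p2 6 9 10 5 2)))) (.nd
  10 9 (.p1 10 9 1 6 2) (.nd 1 10 (.nd 5 2 (.p1 9 1 5 10 2) (.p2 9 1 10 5 2)) (.nd 10 6 (.p1 9 10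
  1 6 2) (.p2 9 6 10 5 1))))))))) (.nd 5 9 (.p1 1 5 4 9 0) (.nd 1 9 (.p2 1 9 5 0 4) (.p2 9 1 5 0
  4)))) (.nd 5 8 (.nd 4 5 (.p1 4 5 1 8 0) (.nd 9 5 (.p1 9 5 1 8 0) (.nd 1 4 (.nd 1 9 (.p1 5 1 4 9
  0) (.nd 9 8 (.p1 5 9 1 8 0) (.p2 5 8 9 4 1))) (.nd 4 8 (.p1 5 4 1 8 0) (.nd 8 9 (.p1 5 8 4 9 0)
  (.nd 9 1 (.p1 5 9 1 8 0) (.p2 5 1 9 4 8))))))) (.nd 4 8 (.p2 4 8 5 0 1) (.nd 4 5 (.p2 8 4 5 0 1)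
  (.nd 9 8 (.p2 9 8 5 0 1) (.nd 5 9 (.p1 8 5 4 9 0) (.p2 8 9 5 0 1))))))) (.nd 2 11 (.nd 10 2 (.p1
  10 2 1 11 0) (.nd 10 11 (.nd 10 1 (.p1 2 10 1 11 0) (.nd 9 1 (.p2 9 1 10 0 11) (.nd 9 10 (.p2 1
  9 10 0 11) (.nd 9 5 (.p2 2 1 10 5 9) (.nd 1 5 (.p1 2 1 5 10 9) (.nd 2 5 (.nd 6 2 (.p1 6 2 5 10
  9) (.nd 9 6 (.p2 2 5 1 6 9) (.nd 6 5 (.p2 2 6 5 10 1) (.p1 2 5 1 6 9)))) (.nd 9 6 (.p2 5 2 1 6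
  9) (.nd 6 5 (.p2 6 5 2 9 1) (.nd 2 6 (.p1 5 2 1 6 9) (.p2 5 6 2 9 1)))))))))) (.nd 6 10 (.nd 3 6
  (.nd 11 3 (.p2 2 11 3 10 6) (.nd 2 3 (.p1 2 3 6 11 10) (.nd 2 6 (.p1 3 2 6 11 10) (.nd 7 3 (.p1
  7 3 6 11 10) (.nd 10 7 (.p2 3 6 2 7 10) (.nd 7 6 (.p2 3 7 6 11 2) (.p1 3 6 2 7 10))))))) (.nd 3
  11 (.nd 2 6 (.p2 2 6 3 10 11) (.nd 2 3 (.p2 6 2 3 10 11) (.nd 10 7 (.p2 6 3 2 7 10) (.nd 7 6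
  (.p2 7 6 3 10 2) (.nd 3 7 (.p1 6 3 2 7 10) (.p2 6 7 3 10 2)))))) (.nd 3 7 (.nd 10 7 (.p1 2 11 3
  10 7) (.p2 2 11 3 10 7)) (.nd 7 8 (.nd 4 7 (.p1 4 7 3 8 0) (.nd 11 7 (.p1 11 7 3 8 0) (.nd 11 8
  (.p1 7 11 3 8 0) (.nd 4 8 (.p2 7 4 8 3 11) (.p1 7 8 4 11 0))))) (.nd 4 8 (.p2 4 8 7 0 3) (.nd 4
  7 (.p2 8 4 7 0 3) (.nd 11 8 (.p2 11 8 7 0 3) (.nd 7 11 (.p1 8 7 4 11 0) (.p2 8 11 7 0 3)))))))))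
  (.nd 6 3 (.p2 2 11 10 3 6) (.nd 3 2 (.p2 3 2 11 6 10) (.nd 11 3 (.p1 2 11 3 10 6) (.p2 2 3 11 6
  10))))))) (.nd 3 11 (.p2 3 11 2 0 1) (.nd 3 2 (.p2 11 3 2 0 1) (.nd 3 7 (.nd 10 11 (.p2 10 11 2
  7 3) (.nd 7 10 (.p2 11 2 3 10 7) (.nd 10 2 (.p2 11 10 2 7 3) (.p1 11 2 3 10 7)))) (.nd 7 8 (.nd
  4 7 (.p1 4 7 3 8 0) (.nd 11 7 (.p1 11 7 3 8 0) (.nd 11 8 (.p1 7 11 3 8 0) (.nd 4 8 (.p2 7 4 8 3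
  11) (.p1 7 8 4 11 0))))) (.nd 4 8 (.p2 4 8 7 0 3) (.nd 4 7 (.p2 8 4 7 0 3) (.nd 11 8 (.p2 11 8 7
  0 3) (.nd 7 11 (.p1 8 7 4 11 0) (.p2 8 11 7 0 3)))))))))))

def root : T :=
  (.nd 0 1 t5 (.nd 0 4 (.nd 4 5 (.nd 5 9 (.p2 1 0 4 9 5) (.nd 9 1 (.p2 9 1 0 5 4) (.nd 0 9 (.p1 1
  0 4 9 5) (.p2 1 9 0 5 4)))) (.nd 5 9 (.nd 0 9 (.nd 9 1 (.c3 0 9 1) t7) (.nd 1 5 (.p2 1 5 9 4 0)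
  (.nd 1 9 (.p2 5 1 9 4 0) (.nd 0 8 (.p2 5 9 1 8 0) (.nd 8 5 (.p2 8 5 9 4 0) (.nd 9 8 (.p1 5 9 1 8
  0) (.p2 5 8 9 4 0))))))) (.nd 0 9 (.p2 1 0 9 4 5) (.nd 1 9 (.p1 1 9 0 5 4) (.nd 8 9 (.p1 8 9 0 5
  4) (.nd 1 5 (.p1 9 1 0 5 4) (.nd 0 8 (.p2 9 5 1 8 0) (.nd 8 5 (.p2 9 8 5 0 1) (.p1 9 5 1 8
  0))))))))) (.nd 0 3 (.nd 3 7 (.nd 7 8 (.p2 4 0 3 8 7) (.nd 8 4 (.p2 8 4 0 7 3) (.nd 0 8 (.p1 4 0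
  3 8 7) (.p2 4 8 0 7 3)))) (.nd 7 8 (.nd 0 8 (.nd 1 4 (.nd 8 5 (.p2 1 4 0 5 8) (.nd 4 5 (.p1 1 4
  0 5 8) (.nd 1 5 (.nd 9 1 (.p1 9 1 0 5 8) (.nd 0 9 (.p2 1 5 4 9 0) (.nd 9 5 (.p2 1 9 5 0 4) (.p1
  1 5 4 9 0)))) (.nd 0 9 (.p2 5 1 4 9 0) (.nd 9 5 (.p2 9 5 1 8 0) (.nd 1 9 (.p1 5 1 4 9 0) (.p2 5
  9 1 8 0))))))) (.nd 8 5 (.p2 4 1 0 5 8) (.nd 5 4 (.p2 5 4 1 8 0) (.nd 1 5 (.p1 4 1 0 5 8) (.p2 4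
  5 1 8 0))))) (.nd 4 7 (.p2 4 7 8 3 0) (.nd 4 8 (.p2 7 4 8 3 0) (.nd 0 11 (.p2 7 8 4 11 0) (.nd
  11 7 (.p2 11 7 8 3 0) (.nd 8 11 (.p1 7 8 4 11 0) (.p2 7 11 8 3 0))))))) (.nd 0 8 (.p2 4 0 8 3 7)
  (.nd 4 8 (.p1 4 8 0 7 3) (.nd 4 7 (.p1 8 4 0 7 3) (.nd 11 8 (.p1 11 8 0 7 3) (.nd 0 11 (.p2 8 7
  4 11 0) (.nd 11 7 (.p2 8 11 7 0 4) (.p1 8 7 4 11 0))))))))) (.nd 0 8 (.nd 1 4 (.nd 8 5 (.p2 1 4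
  0 5 8) (.nd 4 5 (.p1 1 4 0 5 8) (.nd 1 5 (.nd 9 1 (.p1 9 1 0 5 8) (.nd 0 9 (.p2 1 5 4 9 0) (.nd
  9 5 (.p2 1 9 5 0 4) (.p1 1 5 4 9 0)))) (.nd 0 9 (.p2 5 1 4 9 0) (.nd 9 5 (.p2 9 5 1 8 0) (.nd 1
  9 (.p1 5 1 4 9 0) (.p2 5 9 1 8 0))))))) (.nd 8 5 (.p2 4 1 0 5 8) (.nd 5 4 (.p2 5 4 1 8 0) (.nd 1
  5 (.p1 4 1 0 5 8) (.p2 4 5 1 8 0))))) (.nd 0 9 (.nd 1 4 (.nd 9 5 (.p2 1 4 0 5 9) (.nd 5 1 (.p2 5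
  1 4 9 0) (.nd 4 5 (.p1 1 4 0 5 9) (.p2 1 5 4 9 0)))) (.nd 9 5 (.p2 4 1 0 5 9) (.nd 1 5 (.p1 4 1
  0 5 9) (.nd 4 5 (.nd 5 8 (.p1 4 5 1 8 0) (.nd 4 8 (.p1 4 8 0 5 9) (.p1 8 4 0 5 9))) (.nd 4 8
  (.p1 5 4 1 8 0) (.nd 5 8 (.p2 5 8 4 9 0) (.p2 8 5 4 9 0))))))) (.nd 0 11 (.nd 3 4 (.nd 11 7 (.p2
  3 4 0 7 11) (.nd 7 3 (.p2 7 3 4 11 0) (.nd 4 7 (.p1 3 4 0 7 11) (.p2 3 7 4 11 0)))) (.nd 11 7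
  (.p2 4 3 0 7 11) (.nd 3 7 (.p1 4 3 0 7 11) (.nd 4 7 (.nd 7 8 (.p1 4 7 3 8 0) (.nd 4 8 (.p1 4 8 0
  7 11) (.p1 8 4 0 7 11))) (.nd 4 8 (.p1 7 4 3 8 0) (.nd 7 8 (.p2 7 8 4 11 0) (.p2 8 7 4 11
  0))))))) t8))))))

theorem chk_root : chk root 0 = true := by decide +kernel

theorem no_orientation {W : Type} [LinearOrder W] (o : ℕ → ℕ → Prop) (col : ℕ → W)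
    (h0 : ∀ u v, A u v = true → o u v ∨ o v u) (hlt : ∀ u v, o u v → col u < col v)
    (hp1 : ∀ x p a b d, o x p → o x a → o x b → o p a → o p b → a < 12 → b < 12 → a ≠ b →
      o a d → o b d → False)
    (hp2 : ∀ x p a b d, o x p → o x a → o x b → o p a → o p b → o a d → o d b → False) : False :=
  sound o col h0 hlt hp1 hp2 root 0 (fun u v h => by simp [has] at h) chk_root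

end Pool.Agent.Lib.MP_185924_lc.CO.Cert
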