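import Pool.Agent.Lib.MP_185924_lc.CO.Fn

/-! The graph read off from a sequence of bits, and its deterministic properties. -/

set_option autoImplicit false

namespace Pool.Agent.Lib.MP_185924_lc.CO

open Set

variable {W I : Type} [LinearOrder W]

/-- the larger coordinate -/
def ht (x : W × W) : W := max x.1 x.2

theorem col_le_ht (x : W × W) : x.1 ≤ ht x := le_max_left _ _

theorem row_le_ht (x : W × W) : x.2 ≤ ht x := le_max_right _ _

/-- enumerations of the countable initial segments and the positions of the bits -/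
structure Data (W I : Type) [LinearOrder W] where
  e : W → W → ℕ
  k : W × W → W × W → ℕ
  j : W × W → W × W → I
  e_inj : ∀ β, InjOn (e β) (Iic β)
  k_inj : ∀ x, InjOn (k x) {p | ht p < ht x}
  j_inj : ∀ x p x' p', j x p = j x' p' → x = x' ∧ p = p'

theorem exists_data (hc : ∀ a : W, (Iic a).Countable) (f : (W × W) × (W × W) ↪ I) :
    Nonempty (Data W I) := by
  have h1 : ∀ β : W, ∃ e : W → ℕ, InjOn e (Iic β) := fun β =>
    countable_iff_exists_injOn.1 (hc β)
  have h2 : ∀ x : W × W, ∃ k : W × W → ℕ, InjOn k {p | ht p < ht x} := fun x =>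
    countable_iff_exists_injOn.1 (((hc (ht x)).prod (hc (ht x))).mono fun p hp =>
      mk_mem_prod ((col_le_ht p).trans (le_of_lt hp)) ((row_le_ht p).trans (le_of_lt hp)))
  choose e he using h1
  choose k hk using h2
  exact ⟨⟨e, k, fun x p => f (x, p), he, hk, fun x p x' p' h => Prod.mk.inj (f.injective h)⟩⟩

variable (D : Data W I) (c : I → Bool)

/-- `a` is a candidate neighbour of `x` enumerated before `p` -/
def Earlier (x a p : W × W) : Prop :=
  c (D.j x a) = true ∧ ht a < ht x ∧ D.k x a < D.k x p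

/-- the directed edges -/
def E (x p : W × W) : Prop :=
  c (D.j x p) = true ∧ x.1 < p.1 ∧ ht p < ht x ∧ ∀ a, Earlier D c x a p →
    ¬ (c (D.j a p) = true ∧ ht p < ht a) ∧
    (p.1 ≤ ht a → D.e (ht a) x.1 < D.e (ht a) p.1 ∧
      ∀ b, Earlier D c x b p → D.e (ht a) b.1 < D.e (ht a) p.1)

variable {D c}

theorem E.col {x p : W × W} (h : E D c x p) : x.1 < p.1 := h.2.1

theorem E.ht {x p : W × W} (h : E D c x p) : ht p < ht x := h.2.2.1

theorem E.earlier {x p a : W × W} (h1 : E D c x p) (h2 : E D c x a) (h3 : E D c p a) :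
    Earlier D c x a p := by
  refine ⟨h2.1, h2.ht, ?_⟩
  rcases lt_trichotomy (D.k x a) (D.k x p) with h | h | h
  · exact h
  · have := D.k_inj x h2.ht h1.ht h
    subst this
    exact absurd h3.col (lt_irrefl _)
  · exact absurd ⟨h3.1, h3.ht⟩ (h2.2.2.2 p ⟨h1.1, h1.ht, h⟩).1

theorem E.sep_aux {x p a b : W × W} (h1 : E D c x p) (h2 : E D c x a) (h3 : E D c x b)
    (h4 : E D c p a) (h5 : E D c p b) (hk : D.k p a < D.k p b) : CO.ht a < b.1 := by
  by_contra hn
  have hb : b.1 ≤ CO.ht a := not_lt.1 hn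
  have ea := h1.earlier h2 h4
  have eb := h1.earlier h3 h5
  have i1 := ((h1.2.2.2 a ea).2 (h4.col.le.trans (col_le_ht a))).2 b eb
  have i2 := ((h5.2.2.2 a ⟨h4.1, h4.ht, hk⟩).2 hb).1
  exact lt_asymm i1 i2

/-- two common out-neighbours of an edge are separated -/
theorem E.sep {x p a b : W × W} (h1 : E D c x p) (h2 : E D c x a) (h3 : E D c x b)
    (h4 : E D c p a) (h5 : E D c p b) (hab : a ≠ b) : CO.ht a < b.1 ∨ CO.ht b < a.1 := by
  rcases lt_trichotomy (D.k p a) (D.k p b) with h | h | h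
  · exact Or.inl (h1.sep_aux h2 h3 h4 h5 h)
  · exact absurd (D.k_inj p h4.ht h5.ht h) hab
  · exact Or.inr (h1.sep_aux h3 h2 h5 h4 h)

theorem E.not_K4 {x p a b : W × W} (h1 : E D c x p) (h2 : E D c x a) (h3 : E D c x b)
    (h4 : E D c p a) (h5 : E D c p b) (h6 : E D c a b) : False := by
  rcases h1.sep h2 h3 h4 h5 (fun h => by subst h; exact lt_irrefl _ h6.col) with h | h
  · exact lt_asymm h6.ht (h.trans_le (col_le_ht b))
  · exact lt_asymm h6.col ((col_le_ht b).trans_lt h)

theorem E.not_P1 {x p a b d : W × W} (h1 : E D c x p) (h2 : E D c x a) (h3 : E D c x b)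
    (h4 : E D c p a) (h5 : E D c p b) (hab : a ≠ b) (h6 : E D c a d) (h7 : E D c b d) : False := by
  rcases h1.sep h2 h3 h4 h5 hab with h | h
  · exact lt_asymm h6.ht (h.trans (h7.col.trans_le (col_le_ht d)))
  · exact lt_asymm h7.ht (h.trans (h6.col.trans_le (col_le_ht d)))

theorem E.not_P2 {x p a b d : W × W} (h1 : E D c x p) (h2 : E D c x a) (h3 : E D c x b)
    (h4 : E D c p a) (h5 : E D c p b) (h6 : E D c a d) (h7 : E D c d b) : False := by
  have hab := h6.col.trans h7.col
  rcases h1.sep h2 h3 h4 h5 (fun h => by subst h; exact lt_irrefl _ hab) with h | h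
  · exact lt_asymm (h7.ht.trans h6.ht) (h.trans_le (col_le_ht b))
  · exact lt_asymm hab ((col_le_ht b).trans_lt h)

/-- an edge depends on finitely many bits -/
theorem E.finite_dep {x p : W × W} (h : E D c x p) :
    ∃ F : Finset I, ∀ c' : I → Bool, (∀ i ∈ F, c' i = c i) → E D c' x p := by
  have hfin : {a | CO.ht a < CO.ht x ∧ D.k x a < D.k x p}.Finite :=
    Finite.of_finite_image ((finite_Iio (D.k x p)).subset (by
      rintro _ ⟨a, ha, rfl⟩
      exact ha.2)) ((D.k_inj x).mono fun a ha => ha.1)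
  have hF := ((hfin.image (D.j x)).union (hfin.image fun a => D.j a p)).insert (D.j x p)
  refine ⟨hF.toFinset, fun c' hc' => ?_⟩
  simp only [Finite.mem_toFinset] at hc'
  have he : ∀ a, Earlier D c' x a p → Earlier D c x a p := fun a ha =>
    ⟨by rw [← hc' _ (Or.inr (Or.inl ⟨a, ha.2, rfl⟩))]; exact ha.1, ha.2⟩
  refine ⟨by rw [hc' _ (Or.inl rfl)]; exact h.1, h.col, h.ht, fun a ha => ?_⟩
  have h2 := h.2.2.2 a (he a ha)
  refine ⟨fun h3 => h2.1 ⟨?_, h3.2⟩, fun h3 => ⟨(h2.2 h3).1, fun b hb => (h2.2 h3).2 b (he b hb)⟩⟩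
  rw [← hc' _ (Or.inr (Or.inr ⟨a, ha.2, rfl⟩))]
  exact h3.1

end Pool.Agent.Lib.MP_185924_lc.CO
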