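import Pool.Agent.Lib.MP_40ade9_lc.Defs

/-!
Definitions for the negative partition relation on `ω₁²` in the extensions by Cohen reals.
The language of set theory `Fm`, names `PName` and the forcing relation `Forces` are those of
`Pool.Agent.Lib.MP_40ade9_lc` (Kunen, Set Theory, 1980, Chapter VII, Definition 3.3).
-/

set_option autoImplicit false

universe v

namespace Pool.Agent.Lib.MP_185924_lc.CO

open Pool.Agent.Lib.MP_40ade9_lc Pool.Agent.Lib.MP_40ade9_lc.Fm

/-- Conditions of the forcing `Fn(I, 2)` adding `|I|` Cohen reals: finite functions from a subset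
of `I` to `2`, as sets of pairs. -/
structure Fn (I : Type) where
  graph : Finset (I × Bool)
  func : ∀ i a b, (i, a) ∈ graph → (i, b) ∈ graph → a = b

/-- Reverse inclusion: `q ≤ p` means that `q` extends `p`. -/
instance (I : Type) : Preorder (Fn I) where
  le q p := p.graph ⊆ q.graph
  le_refl _ := Finset.Subset.refl _
  le_trans _ _ _ h1 h2 := Finset.Subset.trans h2 h1

variable {V : Type v}

/-- `⟨⟨a, b⟩, ⟨c, d⟩⟩ ∈ f` -/
def app4 (f a b c d : V) : Fm V :=
  ex fun u => ex fun w => and (isPair u a b) (and (isPair w c d) (app f u w))

/-- `⟨a, b⟩` precedes `⟨c, d⟩` lexicographically (for ordinals, first coordinate first) -/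
def lexLt (a b c d : V) : Fm V := or (mem a c) (and (eq a c) (mem b d))

/-- `u` and `w` are adjacent in the graph given by the set of pairs `H` -/
def adj (H u w : V) : Fm V := or (app H u w) (app H w u)

/-- `f` gives every point of `w × l` a value in `l × l`, and values at lexicographically
increasing points are lexicographically increasing and not adjacent in `H` -/
def indepCopy (f H w l : V) : Fm V :=
  and (all fun n => all fun x => imp (and (mem n w) (mem x l))
      (ex fun a => ex fun b => and (mem a l) (and (mem b l) (app4 f n x a b))))
    (all fun n => all fun x => all fun a => all fun b =>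
      all fun m => all fun y => all fun c => all fun d =>
        imp (and (app4 f n x a b) (and (app4 f m y c d) (lexLt n x m y)))
          (and (lexLt a b c d) (and (not (app4 H a b c d)) (not (app4 H c d a b)))))

/-- `∃ x 0, …, ∃ x (n - 1), φ x` -/
def exF : (n : ℕ) → ((Fin n → V) → Fm V) → Fm V
  | 0, φ => φ Fin.elim0
  | n + 1, φ => ex fun a => exF n fun x => φ (Fin.cons a x)

/-- the conjunction of a list of formulas -/
def conj : List (Fm V) → Fm V
  | [] => all fun a => eq a a
  | φ :: L => and φ (conj L)

open Classical in
/-- the graph `H` contains a copy of the finite graph `G`: distinct points `x i`, with `x i` and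
`x j` adjacent in `H` whenever `i` and `j` are adjacent in `G` -/
noncomputable def hasCopy {n : ℕ} (G : SimpleGraph (Fin n)) (H : V) : Fm V :=
  exF n fun x =>
    and (conj (((List.finRange n ×ˢ List.finRange n).filter fun e => e.1 ≠ e.2).map
        fun e => not (eq (x e.1) (x e.2))))
      (conj (((List.finRange n ×ˢ List.finRange n).filter fun e => G.Adj e.1 e.2).map
        fun e => adj H (x e.1) (x e.2)))

/-- The sentence: for `w = ω` and `l = ω₁` there is a graph `H` such that the lexicographically
ordered `ω₁ × ω₁` (of type `ω₁²`) has no `H`-independent subset of the type `ω₁ω` of `ω × ω₁`,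
and `H` contains neither four pairwise adjacent points nor a copy of `G`. -/
noncomputable def negRel {n : ℕ} (G : SimpleGraph (Fin n)) : Fm V :=
  ex fun w => ex fun l => ex fun H =>
    and (isOmega w) (and (isSuccCard l w) (and (not (ex fun f => indepCopy f H w l))
      (and (not (hasCopy (⊤ : SimpleGraph (Fin 4)) H)) (not (hasCopy G H)))))

end Pool.Agent.Lib.MP_185924_lc.CO
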