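import Pool.Agent.Lib.MP_185924_lc.CO.Defs

/-! Conditions of `Fn(I, 2)`: domains, restrictions, amalgamation, closure and chain condition. -/

set_option autoImplicit false

namespace Pool.Agent.Lib.MP_185924_lc.CO

open Set

variable {I : Type}

theorem le_def {q p : Fn I} : q ≤ p ↔ p.graph ⊆ q.graph := Iff.rfl

/-- the empty condition -/
def one (I : Type) : Fn I := ⟨∅, fun _ _ _ h => absurd h (Finset.notMem_empty _)⟩

theorem le_one (p : Fn I) : p ≤ one I := Finset.empty_subset _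

/-- the total function `c` extends the condition `s` -/
def Ext (s : Fn I) (c : I → Bool) : Prop := ∀ i b, (i, b) ∈ s.graph → c i = b

open Classical in
/-- the domain of a condition -/
noncomputable def dom (s : Fn I) : Finset I := s.graph.image Prod.fst

theorem mem_dom {s : Fn I} {i : I} : i ∈ dom s ↔ ∃ b, (i, b) ∈ s.graph := by
  simp [dom]

theorem Ext.mono {s t : Fn I} {c : I → Bool} (h : Ext t c) (hst : t ≤ s) : Ext s c :=
  fun i b hi => h i b (hst hi)

open Classical in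
/-- restriction of a total function to a finite set -/
noncomputable def res (c : I → Bool) (D : Finset I) : Fn I :=
  ⟨D.image fun i => (i, c i), fun i a b ha hb => by
    simp only [Finset.mem_image, Prod.mk.injEq] at ha hb
    obtain ⟨_, -, rfl, rfl⟩ := ha
    obtain ⟨_, -, rfl, rfl⟩ := hb
    rfl⟩

theorem mem_res {c : I → Bool} {D : Finset I} {i : I} {b : Bool} :
    (i, b) ∈ (res c D).graph ↔ i ∈ D ∧ c i = b := by
  simp only [res, Finset.mem_image, Prod.mk.injEq]
  constructor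
  · rintro ⟨_, h, rfl, rfl⟩
    exact ⟨h, rfl⟩
  · rintro ⟨h, rfl⟩
    exact ⟨i, h, rfl, rfl⟩

theorem res_le {c : I → Bool} {D : Finset I} {s : Fn I} (h : Ext s c) (hD : dom s ⊆ D) :
    res c D ≤ s := fun ⟨i, b⟩ hi => mem_res.2 ⟨hD (mem_dom.2 ⟨b, hi⟩), h i b hi⟩

theorem Ext.of_res {c c' : I → Bool} {D : Finset I} (h : Ext (res c D) c') {i : I}
    (hi : i ∈ D) : c' i = c i := h i _ (mem_res.2 ⟨hi, rfl⟩)

open Classical in
/-- restriction of a condition to a set -/
noncomputable def cut (s : Fn I) (N : Set I) : Fn I :=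
  ⟨s.graph.filter fun e => e.1 ∈ N, fun i a b ha hb =>
    s.func i a b (Finset.mem_filter.1 ha).1 (Finset.mem_filter.1 hb).1⟩

theorem mem_cut {s : Fn I} {N : Set I} {i : I} {b : Bool} :
    (i, b) ∈ (cut s N).graph ↔ (i, b) ∈ s.graph ∧ i ∈ N := by
  simp [cut]

theorem le_cut (s : Fn I) (N : Set I) : s ≤ cut s N := fun ⟨_, _⟩ h => (mem_cut.1 h).1

theorem dom_cut (s : Fn I) (N : Set I) : (↑(dom (cut s N)) : Set I) ⊆ N := fun _ hi => by
  obtain ⟨b, hb⟩ := mem_dom.1 hi
  exact (mem_cut.1 hb).2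

theorem cut_le {s t : Fn I} {N : Set I} (h : s ≤ t) (hN : (↑(dom t) : Set I) ⊆ N) :
    cut s N ≤ t := fun ⟨_, b⟩ hi => mem_cut.2 ⟨h hi, hN (mem_dom.2 ⟨b, hi⟩)⟩

/-- A condition `s` and an extension inside `N` of its restriction to `N` agree. -/
theorem amalg_agree {s r : Fn I} {N : Set I} (hr : r ≤ cut s N) (hN : (↑(dom r) : Set I) ⊆ N)
    {i : I} {a b : Bool} (ha : (i, a) ∈ s.graph) (hb : (i, b) ∈ r.graph) : a = b :=
  r.func i a b (hr (mem_cut.2 ⟨ha, hN (mem_dom.2 ⟨b, hb⟩)⟩)) hb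

theorem exists_ext_two {s r : Fn I}
    (h : ∀ i a b, (i, a) ∈ s.graph → (i, b) ∈ r.graph → a = b) (i0 : Option I)
    (hs : ∀ i, i0 = some i → i ∉ dom s) (hr : ∀ i, i0 = some i → i ∉ dom r) :
    ∃ c : I → Bool, Ext s c ∧ Ext r c ∧
      ∀ i, c i = true ↔ (i, true) ∈ s.graph ∨ (i, true) ∈ r.graph ∨ i0 = some i := by
  classical
  refine ⟨fun i => decide ((i, true) ∈ s.graph ∨ (i, true) ∈ r.graph ∨ i0 = some i),
    fun i b hi => ?_, fun i b hi => ?_, fun i => by simp⟩
  · cases b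
    · simp only [decide_eq_false_iff_not, not_or]
      exact ⟨fun h' => Bool.false_ne_true (s.func _ _ _ hi h'),
        fun h' => Bool.false_ne_true (h _ _ _ hi h'), fun h' => hs i h' (mem_dom.2 ⟨_, hi⟩)⟩
    · simp [hi]
  · cases b
    · simp only [decide_eq_false_iff_not, not_or]
      exact ⟨fun h' => Bool.false_ne_true (h _ _ _ h' hi).symm,
        fun h' => Bool.false_ne_true (r.func _ _ _ hi h'), fun h' => hr i h' (mem_dom.2 ⟨_, hi⟩)⟩
    · simp [hi]

theorem exists_ext (s : Fn I) : ∃ c, Ext s c := by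
  obtain ⟨c, hc, -⟩ := exists_ext_two (s := s) (r := s) s.func none (by simp) (by simp)
  exact ⟨c, hc⟩

theorem amalg {s r : Fn I} {N : Set I} (hr : r ≤ cut s N) (hN : (↑(dom r) : Set I) ⊆ N) :
    ∃ w, w ≤ s ∧ w ≤ r := by
  classical
  obtain ⟨c, h1, h2, -⟩ := exists_ext_two (s := s) (r := r)
    (fun _ _ _ => amalg_agree hr hN) none (by simp) (by simp)
  exact ⟨res c (dom s ∪ dom r), res_le h1 Finset.subset_union_left,
    res_le h2 Finset.subset_union_right⟩

theorem countable_dom {S : Set I} (hS : S.Countable) :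
    {s : Fn I | (↑(dom s) : Set I) ⊆ S}.Countable := by
  have h1 := countable_ofPred_finite_subset (hS.prod (countable_univ (α := Bool)))
  refine (h1.preimage_of_injOn (f := fun s : Fn I => (↑s.graph : Set (I × Bool))) ?_).mono ?_
  · intro s _ t _ h
    cases s
    cases t
    congr
    exact Finset.coe_injective h
  · intro s hs
    exact ⟨s.graph.finite_toSet, fun ⟨i, b⟩ hi => ⟨hs (mem_dom.2 ⟨b, hi⟩), trivial⟩⟩

/-- Countable sets closed under a finitary operation. -/
theorem exists_closed {A T : Type} (supp out : T → Finset A)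
    (hT : ∀ S : Set A, S.Countable → {t | (↑(supp t) : Set A) ⊆ S}.Countable) (S0 : Finset A) :
    ∃ N : Set A, N.Countable ∧ ↑S0 ⊆ N ∧ ∀ t, ↑(supp t) ⊆ N → ↑(out t) ⊆ N := by
  let step : Set A → Set A := fun S => S ∪ ⋃ t ∈ {t | (↑(supp t) : Set A) ⊆ S}, ↑(out t)
  let M : ℕ → Set A := fun k => step^[k] ↑S0
  have hM : ∀ k, M (k + 1) = step (M k) := fun k => Function.iterate_succ_apply' _ _ _
  have hc : ∀ k, (M k).Countable := by
    intro k
    induction k with
    | zero => exact S0.countable_toSet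
    | succ k ih =>
      rw [hM]
      exact ih.union ((hT _ ih).biUnion fun t _ => (out t).countable_toSet)
  have hmono : Monotone M := monotone_nat_of_le_succ fun k => by
    rw [hM]
    exact subset_union_left
  refine ⟨⋃ k, M k, countable_iUnion hc, subset_iUnion M 0, fun t ht => ?_⟩
  obtain ⟨k, hk⟩ := hmono.directed_le.exists_mem_subset_of_finset_subset_biUnion ht
  refine Subset.trans ?_ (subset_iUnion M (k + 1))
  rw [hM]
  exact (subset_biUnion_of_mem (u := fun t => (↑(out t) : Set A)) hk).trans subset_union_right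

/-- The countable chain condition. -/
theorem ccc (D : Set (Fn I)) :
    ∃ A ⊆ D, A.Countable ∧ ∀ s ∈ D, ∃ a ∈ A, ∃ w, w ≤ s ∧ w ≤ a := by
  have h1 : ∀ u : Fn I, ∃ u' : Fn I, (∃ v ≤ u, v ∈ D) → u' ≤ u ∧ u' ∈ D := fun u => by
    by_cases h : ∃ v ≤ u, v ∈ D
    · obtain ⟨v, h1, h2⟩ := h
      exact ⟨v, fun _ => ⟨h1, h2⟩⟩
    · exact ⟨u, fun h' => absurd h' h⟩
  choose F hF using h1
  obtain ⟨N, hN, -, hcl⟩ := exists_closed (A := I) dom (fun u => dom (F u))
    (fun S hS => countable_dom hS) ∅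
  refine ⟨{a | a ∈ D ∧ (↑(dom a) : Set I) ⊆ N}, fun _ h => h.1,
    (countable_dom hN).mono fun _ h => h.2, fun s hs => ?_⟩
  have h2 := hF (cut s N) ⟨s, le_cut s N, hs⟩
  have h3 := hcl _ (dom_cut s N)
  obtain ⟨w, hw⟩ := amalg h2.1 h3
  exact ⟨_, ⟨h2.2, h3⟩, w, hw⟩

/-- A forced single value has countably many possibilities. -/
theorem countable_vals {B : Type*} {t : Fn I} (R : Fn I → B → Prop)
    (hm : ∀ s s' b, R s b → s' ≤ s → R s' b)
    (hf : ∀ s ≤ t, ∀ b b', R s b → R s b' → b = b') : {b | ∃ s ≤ t, R s b}.Countable := by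
  obtain ⟨A, hA, hc, h⟩ := ccc {s | s ≤ t ∧ ∃ b, R s b}
  refine (hc.biUnion (t := fun a _ => {b | R a b}) fun a ha => ?_).mono ?_
  · exact Set.Subsingleton.countable fun b hb b' hb' => hf a (hA ha).1 b b' hb hb'
  · rintro b ⟨s, hs, hb⟩
    obtain ⟨a, ha, w, h1, h2⟩ := h s ⟨hs, b, hb⟩
    obtain ⟨-, b', hb'⟩ := hA ha
    obtain rfl := hf w (h1.trans hs) b b' (hm _ _ _ hb h1) (hm _ _ _ hb' h2)
    exact mem_biUnion ha hb'

end Pool.Agent.Lib.MP_185924_lc.CO
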