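import Pool.Agent.Lib.MP_185924_lc.CO.Gen
import Pool.Agent.Lib.MP_185924_lc.CO.Cert
import Pool.Agent.Lib.MP_40ade9_lc.Names

/-! Translation between the forcing relation and the ground-model statements. -/

set_option autoImplicit false

namespace Pool.Agent.Lib.MP_185924_lc.CO

open Set Ordinal Cardinal Pool.Agent.Lib.MP_40ade9_lc

section General

variable {P : Type} [Preorder P]

theorem forces_exF : ∀ {n : ℕ} {φ : (Fin n → PName P) → Fm (PName P)} {p : P},
    Forces (exF n φ) p → ∃ r ≤ p, ∃ v, Forces (φ v) r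
  | 0, _, p, h => ⟨p, le_rfl, _, h⟩
  | _ + 1, _, p, h => by
    obtain ⟨r, hr, a, ha⟩ := forces_ex.1 h p le_rfl
    obtain ⟨s, hs, v, hv⟩ := forces_exF ha
    exact ⟨s, hs.trans hr, _, hv⟩

theorem forces_conj : ∀ {L : List (Fm (PName P))} {p : P},
    Forces (conj L) p → ∀ φ ∈ L, Forces φ p
  | [], _, _ => fun _ h => absurd h List.not_mem_nil
  | ψ :: L, _, h => fun φ hφ => by
    rcases List.mem_cons.1 hφ with rfl | h'
    · exact h.1
    · exact forces_conj h.2 φ h'

theorem exists_forall_dense {K : Type} [Finite K] (Q : K → P → Prop) {p : P}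
    (hm : ∀ k s s', Q k s → s' ≤ s → Q k s') (hd : ∀ k, ∀ q ≤ p, ∃ r ≤ q, Q k r) :
    ∃ s ≤ p, ∀ k, Q k s := by
  classical
  have := Fintype.ofFinite K
  have key : ∀ F : Finset K, ∃ s ≤ p, ∀ k ∈ F, Q k s := by
    intro F
    induction F using Finset.induction_on with
    | empty => exact ⟨p, le_rfl, by simp⟩
    | insert k F _ ih =>
      obtain ⟨s, hs, h⟩ := ih
      obtain ⟨r, hr, h'⟩ := hd k s hs
      refine ⟨r, hr.trans hs, fun k' hk' => ?_⟩
      rcases Finset.mem_insert.1 hk' with rfl | hk'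
      · exact h'
      · exact hm _ _ _ (h k' hk') hr
  obtain ⟨s, hs, h⟩ := key Finset.univ
  exact ⟨s, hs, fun k => h k (Finset.mem_univ k)⟩

variable {one : P} (h1 : ∀ p : P, p ≤ one)
include h1

theorem forces_app4 {f a b c d : PName P} {p : P} :
    Forces (app4 f a b c d) p ↔ ForcesMem (op one (op one a b) (op one c d)) f p := by
  simp only [app4, forces_ex, forces_and, forces_isPair h1, forces_app h1]
  constructor
  · intro h
    refine ForcesMem.of_dense fun q hq => ?_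
    obtain ⟨r, hr, u, hu⟩ := h q hq
    obtain ⟨s, hs, w, e1, e2, e3⟩ := hu r le_rfl
    exact ⟨s, hs.trans hr, e3.congr_left (op_congr h1 e1 e2)⟩
  · intro h q hq
    exact ⟨q, le_rfl, _, fun r hr => ⟨r, le_rfl, _, ForcesEq.refl _ _, ForcesEq.refl _ _,
      h.mono (hr.trans hq)⟩⟩

theorem forces_lexLt_on {a b c d : Ordinal.{0}} {p : P} :
    Forces (lexLt (oN one a) (oN one b) (oN one c) (oN one d)) p ↔ a < c ∨ (a = c ∧ b < d) := by
  simp only [lexLt, forces_or, forces_and, forces_mem, forces_eq, forcesMem_on_on h1,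
    forcesEq_on h1]
  constructor
  · intro h
    obtain ⟨_, -, h'⟩ := h p le_rfl
    exact h'
  · intro h q _
    exact ⟨q, le_rfl, h⟩

end General

variable {I : Type}

theorem forces_isCardinal_fn {c : Cardinal.{0}} (hc : ℵ₀ < c) (p : Fn I) :
    Forces (Fm.isCardinal (oN (one I) c.ord)) p := by
  have h1 : ∀ p : Fn I, p ≤ one I := le_one
  simp only [Fm.isCardinal, forces_and, forces_all, forces_imp, forces_not, forces_mem]
  refine ⟨forces_isOrdinal_on h1 _ p, fun y q _ hy r hr hb => ?_⟩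
  obtain ⟨s, hs, a, ha, he⟩ := (forcesMem_on h1).1 hy r hr
  obtain ⟨t, ht, g, hg⟩ := forces_ex.1 hb s hs
  let R : a.ToType → Fn I → c.ord.ToType → Prop := fun k w b =>
    ForcesMem (op (one I) (oN (one I) (k : Ordinal.{0})) (oN (one I) (b : Ordinal.{0}))) g w
  have key : ∀ b : c.ord.ToType, ∃ k : a.ToType, ∃ w ≤ t, R k w b := by
    intro b
    obtain ⟨w, hw, u, hu⟩ := ((forces_bij h1).1 hg).2.2.1 (oN (one I) (b : Ordinal.{0})) t le_rfl
      ((forcesMem_on_on h1).2 (ToType.toOrd b).2) t le_rfl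
    have huy := (bij_mem h1 (hg.mono hw) hu).1
    have hua := huy.congr_right (he.mono (hw.trans ht))
    obtain ⟨w', hw', a', ha', he'⟩ := (forcesMem_on h1).1 hua w le_rfl
    obtain ⟨x, rfl⟩ := (lt_iff_toType a a').1 ha'
    exact ⟨x, w', hw'.trans hw, (hu.mono hw').congr_left (op_congr h1 he' (ForcesEq.refl _ _))⟩
  have hcount : ∀ k, {b | ∃ w ≤ t, R k w b}.Countable := fun k =>
    countable_vals (R k) (fun _ _ _ h h' => h.mono h') fun w hw b b' h h' =>
      (toType_strictMono _).injective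
        ((forcesEq_on h1).1 (((forces_bij h1).1 hg).2.2.2.1 _ _ _ _ hw h h'))
  have hle : #(c.ord.ToType) ≤ #(a.ToType) * ℵ₀ := by
    have e : (univ : Set c.ord.ToType) = ⋃ k, {b | ∃ w ≤ t, R k w b} :=
      (eq_univ_of_forall fun b => mem_iUnion.2 (key b)).symm
    rw [← mk_univ, e]
    exact (mk_iUnion_le_sum_mk).trans ((sum_le_sum _ _ fun k =>
      le_aleph0_iff_set_countable.2 (hcount k)).trans_eq (by simp))
  rw [mk_ord_toType, mk_toType] at hle
  exact absurd hle (not_le.2 (Cardinal.mul_lt_of_lt hc.le (Cardinal.lt_ord.1 ha) hc))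

theorem forces_isSuccCard_fn (p : Fn I) :
    Forces (Fm.isSuccCard (oN (one I) (ℵ_ 1).ord) (oN (one I) ω)) p := by
  have h1 : ∀ p : Fn I, p ≤ one I := le_one
  simp only [Fm.isSuccCard, forces_and, forces_all, forces_imp, forces_mem]
  refine ⟨forces_isCardinal_fn aleph0_lt_aleph_one p,
    (forcesMem_on_on h1).2 (by rw [← ord_aleph0]; exact ord_lt_ord.2 aleph0_lt_aleph_one),
    fun y q _ hy => ?_⟩
  refine forces_or.2 fun r hr => ?_
  obtain ⟨s, hs, a, ha, he⟩ := (forcesMem_on h1).1 hy.1 r hr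
  refine ⟨s, hs, ?_⟩
  rcases lt_trichotomy a ω with hlt | heq | hlt
  · exact Or.inl (forcesMem_on_of_eq h1 he hlt)
  · exact Or.inr (heq ▸ he)
  · exfalso
    have hcard : (ω : Ordinal.{0}).card = a.card := by
      rw [card_omega0]
      refine le_antisymm (aleph0_le_card.2 hlt.le) ?_
      have := Cardinal.lt_ord.1 ha
      rwa [← succ_aleph0, Order.lt_succ_iff] at this
    have h2 := hy.2.mono (hs.trans hr)
    simp only [Fm.isCardinal, forces_and, forces_all, forces_imp, forces_not, forces_mem] at h2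
    exact h2.2 (oN (one I) ω) s le_rfl (((forcesMem_on_on h1).2 hlt).congr_right he.symm) s le_rfl
      (forces_equinum_on h1 hcard he.symm)

/-- the well-order of type `ω₁` -/
abbrev W1 : Type := (ℵ_ 1 : Cardinal.{0}).ord.ToType

/-- the name of a point of `ω₁ × ω₁` -/
noncomputable def pt (I : Type) (x : W1 × W1) : PName (Fn I) :=
  op (one I) (oN (one I) (x.1 : Ordinal.{0})) (oN (one I) (x.2 : Ordinal.{0}))

theorem pt_inj {x y : W1 × W1} {s : Fn I} (h : ForcesEq (pt I x) (pt I y) s) : x = y :=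
  Prod.ext ((toType_strictMono _).injective ((forcesEq_on le_one).1 (op_inj_left le_one h)))
    ((toType_strictMono _).injective ((forcesEq_on le_one).1 (op_inj_right le_one h)))

/-- `s` decides the edge -/
def Dec (D : Data W1 I) (s : Fn I) (e : (W1 × W1) × (W1 × W1)) : Prop :=
  ∀ c, Ext s c → E D c e.1 e.2

theorem Dec.mono {D : Data W1 I} (p q : Fn I) (e : (W1 × W1) × (W1 × W1)) (h : Dec D p e)
    (hq : q ≤ p) : Dec D q e := fun c hc => h c (hc.mono hq)

/-- the name of the graph -/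
noncomputable def grN (D : Data W1 I) : PName (Fn I) :=
  relN (Dec D) fun e => op (one I) (pt I e.1) (pt I e.2)

theorem forces_not_copy (D : Data W1 I) {n : ℕ} (G : SimpleGraph (Fin n))
    (hG : ∀ i, ∃ j, G.Adj i j)
    (h : ∀ c (x : Fin n → W1 × W1), Function.Injective x →
      (∀ i j, G.Adj i j → E D c (x i) (x j) ∨ E D c (x j) (x i)) → False) (p : Fn I) :
    Forces (Fm.not (hasCopy G (grN D))) p := by
  classical
  have h1 : ∀ p : Fn I, p ≤ one I := le_one
  refine forces_not.2 fun q _ hq => ?_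
  obtain ⟨r, -, v, hv1, hv2⟩ := forces_exF hq
  have hne : ∀ i j, i ≠ j → ∀ s ≤ r, ¬ ForcesEq (v i) (v j) s := fun i j hij =>
    forces_not.1 (forces_conj hv1 _ (List.mem_map.2 ⟨(i, j), by simp [hij], rfl⟩))
  have hadj : ∀ i j, G.Adj i j → Forces (adj (grN D) (v i) (v j)) r := fun i j hij =>
    forces_conj hv2 _ (List.mem_map.2 ⟨(i, j), by simp [hij], rfl⟩)
  obtain ⟨s, hs, hQ⟩ := exists_forall_dense (p := r) (fun (e : Fin n × Fin n) s =>
    G.Adj e.1 e.2 → ∃ x y, ForcesEq (v e.1) (pt I x) s ∧ ForcesEq (v e.2) (pt I y) s ∧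
      (Dec D s (x, y) ∨ Dec D s (y, x)))
    (fun e s s' h hs he => by
      obtain ⟨x, y, e1, e2, e3⟩ := h he
      exact ⟨x, y, e1.mono hs, e2.mono hs, e3.imp (fun h => h.mono _ _ _ hs)
        fun h => h.mono _ _ _ hs⟩)
    (fun e t ht => by
      by_cases he : G.Adj e.1 e.2
      · obtain ⟨w, hw, h' | h'⟩ := forces_or.1 (hadj _ _ he) t ht
        · obtain ⟨w', hw', z, e1, e2, e3⟩ :=
            (forcesMem_op_relN h1 Dec.mono).1 ((forces_app h1).1 h') w le_rfl
          exact ⟨w', hw'.trans hw, fun _ => ⟨z.1, z.2, e2, e3, Or.inl e1⟩⟩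
        · obtain ⟨w', hw', z, e1, e2, e3⟩ :=
            (forcesMem_op_relN h1 Dec.mono).1 ((forces_app h1).1 h') w le_rfl
          exact ⟨w', hw'.trans hw, fun _ => ⟨z.2, z.1, e3, e2, Or.inr e1⟩⟩
      · exact ⟨t, le_rfl, fun h' => absurd h' he⟩)
  have hx : ∀ i, ∃ x, ForcesEq (v i) (pt I x) s := fun i => by
    obtain ⟨j, hj⟩ := hG i
    obtain ⟨x, -, e1, -⟩ := hQ (i, j) hj
    exact ⟨x, e1⟩
  choose x hx using hx
  obtain ⟨c, hc⟩ := exists_ext s
  refine h c x (fun i j hij => ?_) fun i j hij => ?_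
  · by_contra hn
    exact hne i j hn s hs ((hx i).trans (hij ▸ (hx j).symm))
  · obtain ⟨a, b, e1, e2, e3⟩ := hQ (i, j) hij
    obtain rfl := pt_inj ((hx i).symm.trans e1)
    obtain rfl := pt_inj ((hx j).symm.trans e2)
    exact e3.imp (fun h' => h' c hc) fun h' => h' c hc

theorem countable_Iic_W1 (a : W1) : (Iic a).Countable := by
  rw [← Iio_insert, countable_insert, ← le_aleph0_iff_set_countable, ← Order.lt_succ_iff,
    succ_aleph0]
  simpa using mk_Iio_lt a (by simp)

instance : Uncountable W1 := by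
  rw [← aleph0_lt_mk_iff, mk_ord_toType]
  exact aleph0_lt_aleph_one

theorem forces_not_indep (D : Data W1 I) (p : Fn I) :
    Forces (Fm.not (Fm.ex fun f =>
      indepCopy f (grN D) (oN (one I) ω) (oN (one I) (ℵ_ 1).ord))) p := by
  have h1 : ∀ p : Fn I, p ≤ one I := le_one
  refine forces_not.2 fun q _ hq => ?_
  obtain ⟨p0, -, f, hf1, hf2⟩ := forces_ex.1 hq q le_rfl
  simp only [forces_all, forces_imp, forces_and, forces_mem, forces_app4 h1, forces_not] at hf1 hf2
  have hlx : ∀ {n m : ℕ} {α β : W1}, (n < m ∨ (n = m ∧ α < β)) →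
      ((n : Ordinal.{0}) < m ∨ ((n : Ordinal.{0}) = m ∧ (α : Ordinal.{0}) < β)) := by
    rintro n m α β (h | h)
    · exact Or.inl (Nat.cast_lt.2 h)
    · exact Or.inr ⟨by rw [h.1], toType_strictMono _ h.2⟩
  refine Sys.false (D := D) (p0 := p0) (R := fun s n α x => ForcesMem
    (op (one I) (op (one I) (oN (one I) n) (oN (one I) (α : Ordinal.{0}))) (pt I x)) f s)
    countable_Iic_W1 ⟨fun _ _ _ _ _ h h' => h.mono h', fun s hs n α => ?_,
      fun s hs n α x m β y hx hy hl => ?_, fun s hs n α x m β y hx hy hl hE => ?_⟩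
  · obtain ⟨r, hr, a, ha⟩ := forces_ex.1 (hf1 (oN (one I) n) (oN (one I) (α : Ordinal.{0})) s hs
      ⟨(forcesMem_on_on h1).2 (natCast_lt_omega0 n), (forcesMem_on_on h1).2 (ToType.toOrd α).2⟩) s
      le_rfl
    obtain ⟨r', hr', b, e1, e2, e3⟩ := forces_ex.1 ha r le_rfl
    obtain ⟨r2, hr2, a', ha', ea⟩ := (forcesMem_on h1).1 e1 r' le_rfl
    obtain ⟨r3, hr3, b', hb', eb⟩ := (forcesMem_on h1).1 e2 r2 hr2
    obtain ⟨a'', rfl⟩ := (lt_iff_toType _ a').1 ha'
    obtain ⟨b'', rfl⟩ := (lt_iff_toType _ b').1 hb'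
    exact ⟨r3, hr3.trans (hr2.trans (hr'.trans hr)), (a'', b''),
      (((forces_app4 h1).1 e3).mono (hr3.trans hr2)).congr_left
        (op_congr h1 (ForcesEq.refl _ _) (op_congr h1 (ea.mono hr3) eb))⟩
  · have := (hf2 _ _ _ _ _ _ _ _ s hs ⟨hx, hy, (forces_lexLt_on h1).2 (hlx hl)⟩).1
    rcases (forces_lexLt_on h1).1 this with h | h
    · exact Or.inl ((toType_strictMono _).lt_iff_lt.1 h)
    · exact Or.inr ⟨(toType_strictMono _).injective h.1, (toType_strictMono _).lt_iff_lt.1 h.2⟩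
  · have := (hf2 _ _ _ _ _ _ _ _ s hs ⟨hx, hy, (forces_lexLt_on h1).2 (hlx (Or.inl hl))⟩).2.1
    exact this s le_rfl ((forcesMem_op_relN h1 Dec.mono).2 fun r hr =>
      ⟨r, le_rfl, (x, y), Dec.mono _ _ _ hE hr, ForcesEq.refl _ _, ForcesEq.refl _ _⟩)

theorem no_K4 (D : Data W1 I) (c : I → Bool) (x : Fin 4 → W1 × W1)
    (h : ∀ i j, (⊤ : SimpleGraph (Fin 4)).Adj i j → E D c (x i) (x j) ∨ E D c (x j) (x i)) :
    False := by
  have hinj : Function.Injective fun i => (x i).1 := fun i j hij => by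
    by_contra hn
    rcases h i j hn with h' | h'
    · exact h'.col.ne hij
    · exact h'.col.ne' hij
  let σ := Tuple.sort fun i => (x i).1
  have hm : StrictMono ((fun i => (x i).1) ∘ σ) :=
    (Tuple.monotone_sort _).strictMono_of_injective (hinj.comp σ.injective)
  have hE : ∀ i j, i < j → E D c (x (σ i)) (x (σ j)) := fun i j hij =>
    (h _ _ fun e => hij.ne (σ.injective e)).resolve_right fun h' => lt_asymm h'.col (hm hij)
  exact (hE 0 1 (by decide)).not_K4 (hE 0 2 (by decide)) (hE 0 3 (by decide))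
    (hE 1 2 (by decide)) (hE 1 3 (by decide)) (hE 2 3 (by decide))

theorem adj_of_A : ∀ u v : Fin 12, Cert.A u v = true →
    (SimpleGraph.circulantGraph ({1, 3, 4} : Set (Fin 12))).Adj u v := by
  simp only [SimpleGraph.circulantGraph_adj, mem_insert_iff, mem_singleton_iff]
  decide

theorem no_C12 (D : Data W1 I) (c : I → Bool) (x : Fin 12 → W1 × W1) (hx : Function.Injective x)
    (h : ∀ i j, (SimpleGraph.circulantGraph ({1, 3, 4} : Set (Fin 12))).Adj i j →
      E D c (x i) (x j) ∨ E D c (x j) (x i)) : False := by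
  let y : ℕ → W1 × W1 := fun u => x (Fin.ofNat 12 u)
  refine Cert.no_orientation (fun u v => E D c (y u) (y v)) (fun u => (y u).1) (fun u v hA => ?_)
    (fun _ _ h => h.col) (fun _ _ a b _ h1 h2 h3 h4 h5 ha hb hab h6 h7 => ?_)
    fun _ _ _ _ _ h1 h2 h3 h4 h5 h6 h7 => h1.not_P2 h2 h3 h4 h5 h6 h7
  · have hb : u < 12 ∧ v < 12 := by
      simp only [Cert.A, Bool.and_eq_true, decide_eq_true_eq] at hA
      exact hA.1
    refine h _ _ (adj_of_A _ _ ?_)
    simpa [Nat.mod_eq_of_lt hb.1, Nat.mod_eq_of_lt hb.2] using hA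
  · refine h1.not_P1 h2 h3 h4 h5 (fun e => hab ?_) h6 h7
    have := congrArg Fin.val (hx e)
    simpa [Nat.mod_eq_of_lt ha, Nat.mod_eq_of_lt hb] using this

theorem not_A4 : ∀ a b : Fin 12, Cert.A a b = true → ∀ c : Fin 12, Cert.A a c = true →
    Cert.A b c = true → ∀ d : Fin 12, Cert.A a d = true → Cert.A b d = true →
      Cert.A c d = true → False := by
  decide +kernel

theorem A_of_adj : ∀ u v : Fin 12,
    (SimpleGraph.circulantGraph ({1, 3, 4} : Set (Fin 12))).Adj u v → Cert.A u v = true := by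
  simp only [SimpleGraph.circulantGraph_adj, mem_insert_iff, mem_singleton_iff]
  decide

theorem cliqueFree_C12 : (SimpleGraph.circulantGraph ({1, 3, 4} : Set (Fin 12))).CliqueFree 4 := by
  rw [SimpleGraph.cliqueFree_iff]
  refine ⟨fun f => ?_⟩
  have h : ∀ i j : Fin 4, i ≠ j → Cert.A (f i) (f j) = true := fun i j hij =>
    A_of_adj _ _ (f.toHom.map_adj hij)
  exact not_A4 _ _ (h 0 1 (by decide)) _ (h 0 2 (by decide)) (h 1 2 (by decide)) _
    (h 0 3 (by decide)) (h 1 3 (by decide)) (h 2 3 (by decide))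

theorem main (I : Type) [Uncountable I] (p : Fn I) :
    Forces (negRel (SimpleGraph.circulantGraph ({1, 3, 4} : Set (Fin 12)))) p := by
  obtain ⟨f⟩ : Nonempty ((W1 × W1) × (W1 × W1) ↪ I) := by
    rw [← Cardinal.le_def]
    simp only [mk_prod, Cardinal.lift_id, mk_ord_toType,
      mul_eq_self (aleph0_le_aleph (1 : Ordinal.{0}))]
    rw [← succ_aleph0, Order.succ_le_iff]
    exact aleph0_lt_mk
  obtain ⟨D⟩ := exists_data countable_Iic_W1 f
  refine forces_ex_intro (oN (one I) ω) (forces_ex_intro (oN (one I) (ℵ_ 1).ord)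
    (forces_ex_intro (grN D) ⟨forces_isOmega_on le_one p, forces_isSuccCard_fn p,
      forces_not_indep D p, forces_not_copy D _ (by decide) (fun c x _ h => no_K4 D c x h) p,
      forces_not_copy D _ (fun i => ⟨i + 1, ?_⟩) (no_C12 D) p⟩))
  revert i
  simp only [SimpleGraph.circulantGraph_adj, mem_insert_iff, mem_singleton_iff]
  decide

end Pool.Agent.Lib.MP_185924_lc.CO
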