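import Pool.Agent.Lib.MP_185924_lc.CO.Comb
import Pool.Agent.Lib.MP_185924_lc.Alg

/-! The density argument, in the ground model. -/

set_option autoImplicit false

namespace Pool.Agent.Lib.MP_185924_lc.CO

open Set

variable {W I : Type} [LinearOrder W]

/-- lexicographic order -/
def Lx (x y : W × W) : Prop := x.1 < y.1 ∨ (x.1 = y.1 ∧ x.2 < y.2)

/-- `R s n α x` says that `s` forces the value `x` at `(n, α)` of an increasing map with
independent range. -/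
structure Sys (D : Data W I) (p0 : Fn I) (R : Fn I → ℕ → W → W × W → Prop) : Prop where
  mono : ∀ s s' n α x, R s n α x → s' ≤ s → R s' n α x
  tot : ∀ s ≤ p0, ∀ n α, ∃ s' ≤ s, ∃ x, R s' n α x
  ord : ∀ s ≤ p0, ∀ n α x m β y, R s n α x → R s m β y → (n < m ∨ (n = m ∧ α < β)) → Lx x y
  ind : ∀ s ≤ p0, ∀ n α x m β y, R s n α x → R s m β y → n < m → ¬ ∀ c, Ext s c → E D c x y

/-- `r` forces that block `n` has unboundedly many values in column `η` -/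
def Rich (R : Fn I → ℕ → W → W × W → Prop) (r : Fn I) (n : ℕ) (η : W) : Prop :=
  ∀ s ≤ r, ∀ β, ∃ r' ≤ s, ∃ α p, p.1 = η ∧ β < p.2 ∧ R r' n α p

variable {D : Data W I} {p0 : Fn I} {R : Fn I → ℕ → W → W × W → Prop}

theorem Rich.mono {r r' : Fn I} {n : ℕ} {η : W} (h : Rich R r n η) (hr : r' ≤ r) :
    Rich R r' n η := fun s hs => h s (hs.trans hr)

theorem Sys.rich_lt (S : Sys D p0 R) {t : Fn I} (ht : t ≤ p0) {n m : ℕ} {η η' : W}
    (h1 : Rich R t n η) (h2 : Rich R t m η') (hnm : n < m) : η < η' := by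
  obtain ⟨r1, hr1, α', p', e1, -, hp'⟩ := h2 t le_rfl η
  obtain ⟨r2, hr2, α, p, e2, hlt, hp⟩ := h1 r1 hr1 p'.2
  rcases S.ord r2 (hr2.trans (hr1.trans ht)) _ _ _ _ _ _ hp (S.mono _ _ _ _ _ hp' hr2)
    (Or.inl hnm) with h | h
  · rwa [e1, e2] at h
  · exact absurd hlt (lt_asymm h.2)

theorem Sys.exists_rich [Uncountable W] (hc : ∀ a : W, (Iic a).Countable) (S : Sys D p0 R)
    {r : Fn I} (hr : r ≤ p0) (n : ℕ) : ∃ r' ≤ r, ∃ η, Rich R r' n η := by
  by_contra hcon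
  have hb : ∀ η : W, ∃ β : W, ∀ s ≤ r, ∀ α p, p.1 = η → R s n α p → p.2 ≤ β := by
    intro η
    obtain ⟨A, hA, hAc, h⟩ :=
      ccc {s | ∃ β : W, ∀ r' ≤ s, ∀ α (p : W × W), p.1 = η → R r' n α p → p.2 ≤ β}
    have h1 : ∀ a : Fn I, ∃ β : W, a ∈ A →
        ∀ r' ≤ a, ∀ α (p : W × W), p.1 = η → R r' n α p → p.2 ≤ β := fun a => by
      by_cases ha : a ∈ A
      · obtain ⟨β, hβ⟩ := hA ha
        exact ⟨β, fun _ => hβ⟩
      · exact ⟨η, fun h' => absurd h' ha⟩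
    choose B hB using h1
    obtain ⟨β, hβ⟩ := exists_ub hc (hAc.image B)
    refine ⟨β, fun s hs α p hp hR => ?_⟩
    have h2 : ¬ Rich R s n η := fun h' => hcon ⟨s, hs, η, h'⟩
    simp only [Rich, not_forall, not_exists, not_and] at h2
    obtain ⟨s', hs', β', h3⟩ := h2
    obtain ⟨a, ha, w, hw1, hw2⟩ := h s' ⟨β', fun r' hr' α' p' hp' hR' =>
      not_lt.1 fun hlt => h3 r' hr' α' p' hp' hlt hR'⟩
    exact (hB a ha w hw2 α p hp (S.mono _ _ _ _ _ hR (hw1.trans hs'))).trans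
      (hβ _ ⟨a, ha, rfl⟩).le
  choose B hB using hb
  obtain ⟨a0⟩ : Nonempty W := inferInstance
  obtain ⟨r1, hr1, z, hz⟩ := S.tot r hr (n + 1) a0
  have hY : {y : W × W | y.1 ≤ z.1 ∧ y.2 ≤ B y.1}.Countable := by
    refine ((hc z.1).biUnion fun η _ => (countable_singleton η).prod (hc (B η))).mono ?_
    rintro y ⟨h1, h2⟩
    exact mem_biUnion h1 (mk_mem_prod rfl h2)
  have hpre : ∀ y : W × W, {α | ∃ s ≤ p0, R s n α y}.Countable := fun y => by
    refine countable_vals (fun s α => R s n α y) (fun s s' α h h' => S.mono _ _ _ _ _ h h') ?_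
    intro s hs α α' h h'
    have hirr : ¬ Lx y y := fun h => by
      rcases h with h | h
      · exact lt_irrefl _ h
      · exact lt_irrefl _ h.2
    rcases lt_trichotomy α α' with hl | hl | hl
    · exact absurd (S.ord s hs _ _ _ _ _ _ h h' (Or.inr ⟨rfl, hl⟩)) hirr
    · exact hl
    · exact absurd (S.ord s hs _ _ _ _ _ _ h' h (Or.inr ⟨rfl, hl⟩)) hirr
  obtain ⟨α, hα⟩ := exists_ub hc (hY.biUnion fun y _ => hpre y)
  obtain ⟨s, hs, y, hy⟩ := S.tot r1 (hr1.trans hr) n α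
  have hs0 := hs.trans (hr1.trans hr)
  have hlx := S.ord s hs0 _ _ _ _ _ _ hy (S.mono _ _ _ _ _ hz hs) (Or.inl (Nat.lt_succ_self n))
  have hy1 : y.1 ≤ z.1 := by
    rcases hlx with h | h
    · exact h.le
    · exact h.1.le
  exact lt_irrefl _ (hα α (mem_biUnion (x := y)
    ⟨hy1, hB y.1 s (hs.trans hr1) α y rfl hy⟩ ⟨s, hs0, hy⟩))

/-- the countable closed set -/
theorem Sys.exists_model [Uncountable W] (hc : ∀ a : W, (Iic a).Countable) (S : Sys D p0 R)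
    (r0 : Fn I) (ξ : W) :
    ∃ (N : Set I) (M : Set W), M.Countable ∧ (↑(dom r0) : Set I) ⊆ N ∧ ξ ∈ M ∧
      (∀ t : Fn I, (↑(dom t) : Set I) ⊆ N → ∀ u v, D.j u v ∈ dom t → u.1 ∈ M ∧ u.2 ∈ M) ∧
      (∀ t ≤ p0, (↑(dom t) : Set I) ⊆ N → ∀ n, ∃ t' ≤ t, ∃ η ∈ M,
        (↑(dom t') : Set I) ⊆ N ∧ Rich R t' n η) ∧
      (∀ t : Fn I, (↑(dom t) : Set I) ⊆ N → ∀ n, ∀ η ∈ M, ∀ β ∈ M, Rich R t n η →
        ∃ t' ≤ t, ∃ α p, (↑(dom t') : Set I) ⊆ N ∧ p.1 = η ∧ β < p.2 ∧ p.2 ∈ M ∧ R t' n α p) := by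
  classical
  let g : W → I := fun w => D.j (w, w) (w, w)
  have hg : Function.Injective g := fun w w' h => congrArg Prod.fst (D.j_inj _ _ _ _ h).1
  have h1 : ∀ t : Fn I, ∀ n, ∃ t' : Fn I × W, t ≤ p0 → t'.1 ≤ t ∧ Rich R t'.1 n t'.2 := by
    intro t n
    by_cases ht : t ≤ p0
    · obtain ⟨t', h, η, h'⟩ := S.exists_rich hc ht n
      exact ⟨(t', η), fun _ => ⟨h, h'⟩⟩
    · exact ⟨(t, ξ), fun h => absurd h ht⟩
  have h2 : ∀ (t : Fn I) (n : ℕ) (η β : W), ∃ t' : Fn I × W, Rich R t n η →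
      t'.1 ≤ t ∧ β < t'.2 ∧ ∃ α, R t'.1 n α (η, t'.2) := by
    intro t n η β
    by_cases ht : Rich R t n η
    · obtain ⟨t', h, α, ⟨_, p2⟩, rfl, h', h''⟩ := ht t le_rfl β
      exact ⟨(t', p2), fun _ => ⟨h, h', α, h''⟩⟩
    · exact ⟨(t, ξ), fun h => absurd h ht⟩
  have h3 : ∀ t : Fn I, ∃ F : Finset I, ∀ u v, D.j u v ∈ dom t → g u.1 ∈ F ∧ g u.2 ∈ F := by
    intro t
    have hfin : {uv : (W × W) × (W × W) | D.j uv.1 uv.2 ∈ dom t}.Finite :=
      Finite.preimage (f := fun uv : (W × W) × (W × W) => D.j uv.1 uv.2)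
        (fun a _ b _ h => Prod.ext (D.j_inj _ _ _ _ h).1 (D.j_inj _ _ _ _ h).2)
        (dom t).finite_toSet
    refine ⟨((hfin.image fun uv => g uv.1.1).union (hfin.image fun uv => g uv.1.2)).toFinset,
      fun u v h => ?_⟩
    simp only [Finite.mem_toFinset]
    exact ⟨Or.inl ⟨(u, v), h, rfl⟩, Or.inr ⟨(u, v), h, rfl⟩⟩
  choose F1 hF1 using h1
  choose F2 hF2 using h2
  choose F3 hF3 using h3
  obtain ⟨N, hN, hN0, hcl⟩ := exists_closed (A := I) (T := Fn I × ℕ × W × W)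
    (fun t => dom t.1 ∪ {g t.2.2.1, g t.2.2.2})
    (fun t => (dom (F1 t.1 t.2.1).1 ∪ {g (F1 t.1 t.2.1).2}) ∪
      (dom (F2 t.1 t.2.1 t.2.2.1 t.2.2.2).1 ∪ {g (F2 t.1 t.2.1 t.2.2.1 t.2.2.2).2}) ∪ F3 t.1)
    (fun T hT => by
      have hp := hT.preimage_of_injOn hg.injOn
      refine ((countable_dom hT).prod ((countable_univ (α := ℕ)).prod (hp.prod hp))).mono ?_
      intro t ht
      simp only [Finset.coe_union, Finset.coe_insert, Finset.coe_singleton, mem_ofPred_eq,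
        union_subset_iff, insert_subset_iff, singleton_subset_iff] at ht
      exact ⟨ht.1, trivial, ht.2.1, ht.2.2⟩) (dom r0 ∪ {g ξ})
  simp only [Finset.coe_union, Finset.coe_insert, Finset.coe_singleton,
    union_subset_iff, insert_subset_iff, singleton_subset_iff] at hN0 hcl
  refine ⟨N, g ⁻¹' N, hN.preimage_of_injOn hg.injOn, hN0.1, hN0.2, fun t ht u v h => ?_,
    fun t ht0 ht n => ?_, fun t ht n η hη β hβ hR => ?_⟩
  · have := (hcl (t, 0, ξ, ξ) ⟨ht, hN0.2, hN0.2⟩).2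
    exact ⟨this (hF3 t u v h).1, this (hF3 t u v h).2⟩
  · have := (hcl (t, n, ξ, ξ) ⟨ht, hN0.2, hN0.2⟩).1.1
    exact ⟨_, (hF1 t n ht0).1, _, this.2, this.1, (hF1 t n ht0).2⟩
  · have := (hcl (t, n, η, β) ⟨ht, hη, hβ⟩).1.2
    obtain ⟨e1, e2, α, e3⟩ := hF2 t n η β hR
    exact ⟨_, e1, α, (η, _), this.1, rfl, e2, this.2, e3⟩

theorem Sys.false [Uncountable W] (hc : ∀ a : W, (Iic a).Countable) (S : Sys D p0 R) : False := by
  classical
  obtain ⟨r0, hr0, ξ, hξ⟩ := S.exists_rich hc le_rfl 0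
  obtain ⟨N, M, hM, hr0N, hξM, cj, c1, c2⟩ := S.exists_model hc r0 ξ
  obtain ⟨b, hb⟩ := exists_ub hc hM
  obtain ⟨p1, hp1, α, x, hx1, hx2, hx⟩ := hξ r0 le_rfl b
  have hxM : x.2 ∉ M := fun h => lt_asymm hx2 (hb _ h)
  have hr : cut p1 N ≤ r0 := cut_le hp1 hr0N
  have hfin : {uv : (W × W) × (W × W) | D.j uv.1 uv.2 ∈ dom p1}.Finite :=
    Finite.preimage (f := fun uv : (W × W) × (W × W) => D.j uv.1 uv.2)
      (fun a _ b _ h => Prod.ext (D.j_inj _ _ _ _ h).1 (D.j_inj _ _ _ _ h).2)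
      (dom p1).finite_toSet
  have hF0 : {a | D.j x a ∈ dom p1}.Finite :=
    (hfin.image Prod.snd).subset fun a ha => ⟨(x, a), ha, rfl⟩
  have hsm : ∀ (β : W) (k : ℕ), {γ | γ ≤ β ∧ D.e β γ ≤ k}.Finite := fun β k =>
    Finite.of_finite_image ((finite_Iic k).subset (by
      rintro _ ⟨a, ha, rfl⟩
      exact ha.2)) ((D.e_inj β).mono fun a ha => ha.1)
  have hBad := (hfin.image fun uv => uv.2.1).union (hF0.biUnion fun a _ =>
    (hF0.insert x).biUnion fun b _ => hsm (ht a) (D.e (ht a) b.1))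
  obtain ⟨Bad, hB1, hB2⟩ : ∃ Bad : Finset W, (∀ u v, D.j u v ∈ dom p1 → v.1 ∈ Bad) ∧
      ∀ a b γ, D.j x a ∈ dom p1 → (b = x ∨ D.j x b ∈ dom p1) → γ ≤ ht a →
        D.e (ht a) γ ≤ D.e (ht a) b.1 → γ ∈ Bad := by
    refine ⟨hBad.toFinset, fun u v h => ?_, fun a b γ h1 h2 h3 h4 => ?_⟩
    · exact (Finite.mem_toFinset _).2 (Or.inl ⟨(u, v), h, rfl⟩)
    · exact (Finite.mem_toFinset _).2 (Or.inr (mem_biUnion h1 (mem_biUnion (x := b) h2 ⟨h3, h4⟩)))
  have chain : ∀ k : ℕ, ∀ t ≤ cut p1 N, (↑(dom t) : Set I) ⊆ N → ∀ m, ∀ η ∈ M, Rich R t m η →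
      (Bad.filter (η < ·)).card ≤ k → ∃ t' ≤ cut p1 N, (↑(dom t') : Set I) ⊆ N ∧ ∃ m', m < m' ∧
        ∃ η' ∈ M, η' ∉ Bad ∧ Rich R t' m' η' := by
    intro k
    induction k with
    | zero =>
      intro t ht htN m η hη hR hk
      have ht0 := ht.trans (hr.trans hr0)
      obtain ⟨t', ht', η', hη', h1, h2⟩ := c1 t ht0 htN (m + 1)
      have hlt := S.rich_lt (ht'.trans ht0) (hR.mono ht') h2 (Nat.lt_succ_self m)
      refine ⟨t', ht'.trans ht, h1, m + 1, Nat.lt_succ_self m, η', hη', fun hbad => ?_, h2⟩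
      have : 0 < (Bad.filter (η < ·)).card :=
        Finset.card_pos.2 ⟨η', Finset.mem_filter.2 ⟨hbad, hlt⟩⟩
      omega
    | succ k ih =>
      intro t ht htN m η hη hR hk
      have ht0 := ht.trans (hr.trans hr0)
      obtain ⟨t', ht', η', hη', h1, h2⟩ := c1 t ht0 htN (m + 1)
      have hlt := S.rich_lt (ht'.trans ht0) (hR.mono ht') h2 (Nat.lt_succ_self m)
      by_cases hbad : η' ∈ Bad
      · have hlt2 : (Bad.filter (η' < ·)).card < (Bad.filter (η < ·)).card := by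
          refine Finset.card_lt_card ⟨fun γ hγ => ?_, fun h => ?_⟩
          · exact Finset.mem_filter.2
              ⟨(Finset.mem_filter.1 hγ).1, hlt.trans (Finset.mem_filter.1 hγ).2⟩
          · exact lt_irrefl _ (Finset.mem_filter.1 (h (Finset.mem_filter.2 ⟨hbad, hlt⟩))).2
        obtain ⟨t'', h3, h4, m', h5, h6⟩ := ih t' (ht'.trans ht) h1 (m + 1) η' hη' h2 (by omega)
        exact ⟨t'', h3, h4, m', by omega, h6⟩
      · exact ⟨t', ht'.trans ht, h1, m + 1, Nat.lt_succ_self m, η', hη', hbad, h2⟩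
  obtain ⟨t, ht, htN, m, hm, η, hη, hbad, hR⟩ :=
    chain _ (cut p1 N) le_rfl (dom_cut p1 N) 0 ξ hξM (hξ.mono hr) le_rfl
  have ht0 := ht.trans (hr.trans hr0)
  have hξη : ξ < η := S.rich_lt ht0 (hξ.mono (ht.trans hr)) hR hm
  obtain ⟨β, hβM, hβ⟩ : ∃ β ∈ M, ∀ a, D.j x a ∈ dom p1 → CO.ht a ∈ M → CO.ht a ≤ β := by
    obtain ⟨β, h1, h2⟩ := exists_max_image (insert ξ (CO.ht '' {a | D.j x a ∈ dom p1} ∩ M)) id
      (((hF0.image _).inter_of_left _).insert _) (insert_nonempty _ _)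
    refine ⟨β, ?_, fun a ha haM => h2 _ (Or.inr ⟨⟨a, ha, rfl⟩, haM⟩)⟩
    rcases h1 with rfl | h1
    · exact hξM
    · exact h1.2
  obtain ⟨r', hr', α', p, hr'N, hp1', hp2, hpM, hp⟩ := c2 t htN m η hη β hβM hR
  have hxr : ∀ a, D.j x a ∉ dom r' := fun a h => hxM (cj r' hr'N _ _ h).2
  have hpp : ∀ a, D.j a p ∉ dom p1 := fun a h => hbad (hp1' ▸ hB1 _ _ h)
  obtain ⟨c, hc1, hc2, hc3⟩ := exists_ext_two (s := p1) (r := r')
    (fun _ _ _ => amalg_agree (hr'.trans ht) hr'N) (some (D.j x p))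
    (fun i h => by cases h; exact hpp x) (fun i h => by cases h; exact hxr p)
  have hearly : ∀ a, Earlier D c x a p → D.j x a ∈ dom p1 := by
    intro a ha
    rcases (hc3 _).1 ha.1 with h | h | h
    · exact mem_dom.2 ⟨_, h⟩
    · exact absurd (mem_dom.2 ⟨_, h⟩) (hxr a)
    · have := (D.j_inj _ _ _ _ (Option.some.inj h)).2
      subst this
      exact absurd ha.2.2 (lt_irrefl _)
  have hE : E D c x p := by
    refine ⟨(hc3 _).2 (Or.inr (Or.inr rfl)), by rw [hx1, hp1']; exact hξη, ?_, fun a ha => ?_⟩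
    · exact (max_lt (hb _ (hp1' ▸ hη)) (hb _ hpM)).trans (hx2.trans_le (row_le_ht x))
    · have ha1 := hearly a ha
      refine ⟨fun h => ?_, fun h => ⟨?_, fun b' hb' => ?_⟩⟩
      · rcases (hc3 _).1 h.1 with h' | h' | h'
        · exact hpp a (mem_dom.2 ⟨_, h'⟩)
        · have h4 := cj r' hr'N _ _ (mem_dom.2 ⟨_, h'⟩)
          have h5 : CO.ht a ∈ M := by
            rcases max_choice a.1 a.2 with h6 | h6
            · rw [CO.ht, h6]
              exact h4.1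
            · rw [CO.ht, h6]
              exact h4.2
          exact lt_asymm h.2 ((hβ a ha1 h5).trans_lt (hp2.trans_le (row_le_ht p)))
        · have := (D.j_inj _ _ _ _ (Option.some.inj h')).1
          subst this
          exact lt_irrefl _ ha.2.1
      · exact not_le.1 fun h' => hbad (hp1' ▸ hB2 a x p.1 ha1 (Or.inl rfl) h h')
      · exact not_le.1 fun h' => hbad (hp1' ▸ hB2 a b' p.1 ha1 (Or.inr (hearly b' hb')) h h')
  obtain ⟨F, hF⟩ := hE.finite_dep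
  have e1 : res c (dom p1 ∪ dom r' ∪ F) ≤ p1 :=
    res_le hc1 (Finset.subset_union_left.trans Finset.subset_union_left)
  have e2 : res c (dom p1 ∪ dom r' ∪ F) ≤ r' :=
    res_le hc2 (Finset.subset_union_right.trans Finset.subset_union_left)
  exact S.ind _ (e1.trans (hp1.trans hr0)) _ _ _ _ _ _ (S.mono _ _ _ _ _ hx e1)
    (S.mono _ _ _ _ _ hp e2) hm fun c' h' =>
      hF c' fun i hi => h'.of_res (Finset.mem_union_right _ hi)

end Pool.Agent.Lib.MP_185924_lc.CO
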